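import Pool.Agent.Helper32.Piv.Pivot2

/-!
# Pivot-minors: induced subgraphs, transitivity, induced odd subdivisions
-/

set_option autoImplicit false
set_option linter.deprecated false

open Finset
open scoped Classical

namespace Pool.Agent.Helper32.Piv

/-- `H` is a pivot-minor of `G` -/
def HasPivotMinor {V W : Type*} (G : SimpleGraph V) (H : SimpleGraph W) : Prop :=
  ∃ G' : SimpleGraph V, PivotReach G G' ∧ Nonempty (H ↪g G')

theorem comap_pivotG {V W : Type*} (φ : W ↪ V) (G : SimpleGraph V) (a b : W) :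
    (pivotG G (φ a) (φ b)).comap φ = pivotG (G.comap φ) a b := by
  ext x y
  rw [SimpleGraph.comap_adj, pivotG_adj, pivotG_adj]
  unfold PivotToggle
  simp only [SimpleGraph.comap_adj, ne_eq, φ.injective.eq_iff]

/-- pivots of an induced subgraph lift to the whole graph -/
theorem exists_lift_reach {V W : Type*} (φ : W ↪ V) (G : SimpleGraph V) (K : SimpleGraph W)
    (h : PivotReach (G.comap φ) K) : ∃ G' : SimpleGraph V, PivotReach G G' ∧ G'.comap φ = K := by
  induction h with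
  | refl => exact ⟨G, PivotReach.refl G, rfl⟩
  | @tail K1 K2 _ hstep ih =>
    obtain ⟨G1, h1, h2⟩ := ih
    obtain ⟨a, b, hab, hK⟩ := hstep
    refine ⟨pivotG G1 (φ a) (φ b), PivotReach.trans h1 (Relation.ReflTransGen.single
      (pivotG_step G1 _ _ ?_)), ?_⟩
    · rw [← h2, SimpleGraph.comap_adj] at hab
      exact hab
    · rw [comap_pivotG, h2, hK]
      rfl

theorem HasPivotMinor.of_embedding {V W X : Type*} {G : SimpleGraph V} {K : SimpleGraph W}
    {H : SimpleGraph X} (f : K ↪g G) (h : HasPivotMinor K H) : HasPivotMinor G H := by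
  obtain ⟨K', hK', ⟨g⟩⟩ := h
  have hcomap : G.comap f.toEmbedding = K := by
    ext x y
    rw [SimpleGraph.comap_adj]
    exact f.map_adj_iff
  rw [← hcomap] at hK'
  obtain ⟨G', h1, h2⟩ := exists_lift_reach f.toEmbedding G K' hK'
  refine ⟨G', h1, ⟨⟨g.toEmbedding.trans f.toEmbedding, ?_⟩⟩⟩
  intro a b
  have h5 : ∀ x y : W, K'.Adj x y ↔ G'.Adj (f x) (f y) := by
    intro x y
    rw [← h2, SimpleGraph.comap_adj]
    exact Iff.rfl
  have h3 : K'.Adj (g a) (g b) ↔ G'.Adj (f (g a)) (f (g b)) := h5 _ _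
  have h4 : K'.Adj (g a) (g b) ↔ H.Adj a b := g.map_adj_iff
  exact h3.symm.trans h4

theorem HasPivotMinor.trans {V W X : Type*} {G : SimpleGraph V} {K : SimpleGraph W}
    {H : SimpleGraph X} (h1 : HasPivotMinor G K) (h2 : HasPivotMinor K H) : HasPivotMinor G H := by
  obtain ⟨G1, hG1, ⟨f⟩⟩ := h1
  obtain ⟨G2, hG2, hf⟩ := HasPivotMinor.of_embedding f h2
  exact ⟨G2, PivotReach.trans hG1 hG2, hf⟩

theorem HasPivotMinor.of_reach {V W : Type*} {G G1 : SimpleGraph V} {H : SimpleGraph W}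
    (h1 : PivotReach G G1) (h2 : HasPivotMinor G1 H) : HasPivotMinor G H := by
  obtain ⟨G2, hG2, hf⟩ := h2
  exact ⟨G2, PivotReach.trans h1 hG2, hf⟩

theorem hasPivotMinor_of_embedding {V W : Type*} {G : SimpleGraph V} {H : SimpleGraph W}
    (f : H ↪g G) : HasPivotMinor G H := ⟨G, PivotReach.refl G, ⟨f⟩⟩

/-- the pivot-minor relation in matrix form: it suffices to reach a graph whose adjacency matrix
on the branch vertices is that of `H` -/
theorem hasPivotMinor_of_adjM {V W : Type*} {G G' : SimpleGraph V} {H : SimpleGraph W}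
    (h : PivotReach G G') (f : W → V) (hf : Function.Injective f)
    (hadj : ∀ a b : W, a ≠ b → adjM G' (f a) (f b) = adjM H a b) : HasPivotMinor G H := by
  refine ⟨G', h, ⟨⟨⟨f, hf⟩, ?_⟩⟩⟩
  intro a b
  by_cases hab : a = b
  · subst hab
    simp
  · show G'.Adj (f a) (f b) ↔ H.Adj a b
    rw [← adjM_eq_one, hadj a b hab, adjM_eq_one]

/-- **Elimination, pivot-minor form.** -/
theorem hasPivotMinor_of_elim {V W : Type*} (G : SimpleGraph V) (H : SimpleGraph W) (S : Finset V)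
    (N : V → V → ZMod 2) (hsymm : ∀ s ∈ S, ∀ t ∈ S, N s t = N t s)
    (hinv : ∀ s ∈ S, ∀ s' ∈ S, ∑ t ∈ S, adjM G s t * N t s' = if s = s' then 1 else 0)
    (f : W → V) (hf : Function.Injective f) (hfS : ∀ w, f w ∉ S)
    (hadj : ∀ a b : W, a ≠ b → adjM H a b = adjM G (f a) (f b) +
      ∑ s ∈ S, ∑ s' ∈ S, adjM G (f a) s * N s s' * adjM G s' (f b)) : HasPivotMinor G H := by
  obtain ⟨G', hG', heq⟩ := exists_elim G S N hsymm hinv
  exact hasPivotMinor_of_adjM hG' f hf fun a b hab => by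
    rw [heq _ _ (hfS a) (hfS b), hadj a b hab]

/-- **Links, pivot-minor form.** Branch vertices `f w`, and for each `e ∈ E` an induced path with
`2 m e` vertices whose first vertex sees among the branch vertices exactly `f (a e)` and whose last
vertex sees exactly `f (b e)`. The new adjacency is the old one plus the number of links. -/
theorem hasPivotMinor_of_links {V W ι : Type*} (G : SimpleGraph V) (H : SimpleGraph W)
    (E : Finset ι) (m : ι → ℕ) (p : ι → ℕ → V) (a b : ι → W)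
    (hp : ∀ e ∈ E, IsInducedPath G (m e) (p e))
    (hdisj : ∀ e ∈ E, ∀ f ∈ E, e ≠ f → ∀ i < 2 * m e, ∀ j < 2 * m f,
      p e i ≠ p f j ∧ ¬ G.Adj (p e i) (p f j))
    (f : W → V) (hf : Function.Injective f) (hfp : ∀ e ∈ E, ∀ i < 2 * m e, ∀ w, f w ≠ p e i)
    (hfirst : ∀ e ∈ E, ∀ w, G.Adj (f w) (p e 0) ↔ w = a e)
    (hlast : ∀ e ∈ E, ∀ w, G.Adj (f w) (p e (2 * m e - 1)) ↔ w = b e)
    (hmid : ∀ e ∈ E, ∀ i < 2 * m e, 0 < i → i + 1 < 2 * m e → ∀ w, ¬ G.Adj (f w) (p e i))
    (hadj : ∀ x y : W, x ≠ y → adjM H x y = adjM G (f x) (f y) +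
      ∑ e ∈ E, ((if x = a e ∧ y = b e then 1 else 0) + (if x = b e ∧ y = a e then 1 else 0))) :
    HasPivotMinor G H := by
  obtain ⟨G', hG', heq⟩ := exists_elim_links E G m p hp hdisj
  refine hasPivotMinor_of_adjM hG' f hf fun x y hxy => ?_
  rw [heq (f x) (f y) (fun e he i hi => hfp e he i hi x) (fun e he i hi => hfp e he i hi y)
    (fun e he i hi h1 h2 => ⟨hmid e he i hi h1 h2 x, hmid e he i hi h1 h2 y⟩), hadj x y hxy]
  congr 1
  refine Finset.sum_congr rfl fun e he => ?_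
  have e1 : ∀ w, adjM G (f w) (p e 0) = if w = a e then 1 else 0 := by
    intro w
    unfold adjM
    congr 1
    exact propext (hfirst e he w)
  have e2 : ∀ w, adjM G (f w) (p e (2 * m e - 1)) = if w = b e then 1 else 0 := by
    intro w
    unfold adjM
    congr 1
    exact propext (hlast e he w)
  rw [adjM_comm G (p e 0), adjM_comm G (p e (2 * m e - 1)), e1, e2, e1, e2]
  congr 1
  · by_cases h1 : x = a e <;> by_cases h2 : y = b e <;> simp [h1, h2]
  · by_cases h1 : x = b e <;> by_cases h2 : y = a e <;> simp [h1, h2]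

/-- translation of the frozen statement: it is enough to treat graphs without the pivot-minor `H`
in the form `¬ HasPivotMinor G H` -/
theorem hasPivotMinor_iff {V W : Type*} (G : SimpleGraph V) (H : SimpleGraph W) :
    HasPivotMinor G H ↔ ∃ G' : SimpleGraph V,
            Relation.ReflTransGen
              (fun (A B : SimpleGraph V) => ∃ u v : V, A.Adj u v ∧
                B = SimpleGraph.fromRel (fun x y => Xor' (A.Adj x y)
                  ((((A.Adj u x ∧ A.Adj v x) ∧ (A.Adj u y ∧ ¬ A.Adj v y ∧ y ≠ v)) ∨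
                    ((A.Adj u x ∧ ¬ A.Adj v x ∧ x ≠ v) ∧ (A.Adj u y ∧ A.Adj v y)) ∨
                    ((A.Adj u x ∧ A.Adj v x) ∧ (A.Adj v y ∧ ¬ A.Adj u y ∧ y ≠ u)) ∨
                    ((A.Adj v x ∧ ¬ A.Adj u x ∧ x ≠ u) ∧ (A.Adj u y ∧ A.Adj v y)) ∨
                    ((A.Adj u x ∧ ¬ A.Adj v x ∧ x ≠ v) ∧ (A.Adj v y ∧ ¬ A.Adj u y ∧ y ≠ u)) ∨
                    ((A.Adj v x ∧ ¬ A.Adj u x ∧ x ≠ u) ∧ (A.Adj u y ∧ ¬ A.Adj v y ∧ y ≠ v))))))
              G G' ∧ Nonempty (H ↪g G') := Iff.rfl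

end Pool.Agent.Helper32.Piv
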