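import Mathlib

/-!
# Definitions: linear bounds, decompositions, binary matroids, perturbations
-/

set_option autoImplicit false

open Finset
open scoped Classical

namespace Pool.Agent.Helper32.Piv

/-- The graph `G` has no complete bipartite subgraph `K_{s,s}` on the set `Z` of vertices. -/
def NoBiclique {E : Type*} (G : SimpleGraph E) (s : ℕ) (Z : Finset E) : Prop :=
  ∀ A ⊆ Z, ∀ J ⊆ Z, A.card = s → J.card = s → ∃ a ∈ A, ∃ b ∈ J, ¬ G.Adj a b

/-- For every `s`, the subgraphs of `G` without `K_{s,s}` induced on sets `Z` of vertices have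
average degree at most `c * s`. -/
def LinearBound {E : Type*} (c : ℕ) (G : SimpleGraph E) : Prop :=
  ∀ (s : ℕ) (Z : Finset E), NoBiclique G s Z →
    ((Z ×ˢ Z).filter fun p => G.Adj p.1 p.2).card ≤ c * s * Z.card

/-- `Built Φ q G X`: the set `X` of vertices of `G` has a recursive decomposition. It contains
pairwise disjoint parts, again with a decomposition, such that the vertices of each part `Y` have at
most `q` different neighbourhoods outside of `Y`, and the adjacency of vertices of `X` not in a
common part is that of a graph with property `Φ`. -/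
inductive Built {E : Type*} (Φ : SimpleGraph E → Prop) (q : ℕ) (G : SimpleGraph E) :
    Finset E → Prop
  | node (X : Finset E) (P : Finset (Finset E)) (hsub : ∀ Y ∈ P, Y ⊆ X)
      (hdisj : ∀ Y ∈ P, ∀ Y' ∈ P, Y ≠ Y' → Disjoint Y Y') (hP : ∀ Y ∈ P, Built Φ q G Y)
      (hq : ∀ Y ∈ P, (Y.image fun u => {w : E | w ∉ Y ∧ G.Adj u w}).card ≤ q)
      (G' : SimpleGraph E) (hG' : Φ G')
      (hagree : ∀ u ∈ X, ∀ w ∈ X, (∀ Y ∈ P, ¬ (u ∈ Y ∧ w ∈ Y)) → (G.Adj u w ↔ G'.Adj u w)) :
      Built Φ q G X

/-- The coboundary of a function on the vertices of the graph with edges `e`, joining `x e` and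
`y e`. -/
def cobd {E W : Type*} (x y : E → W) : (W → ZMod 2) →ₗ[ZMod 2] (E → ZMod 2) where
  toFun φ := fun e => φ (x e) + φ (y e)
  map_add' φ ψ := by
    ext e
    simp only [Pi.add_apply]
    ring
  map_smul' a φ := by
    ext e
    simp only [Pi.smul_apply, smul_eq_mul, RingHom.id_apply]
    ring

/-- The cut space of the graph with vertex set `W` and edges `e`, joining `x e` and `y e`: the
vectors `e ↦ φ (x e) + φ (y e)`, where `φ` is a function on the vertices. -/
def cutSpace {E W : Type*} (x y : E → W) : Submodule (ZMod 2) (E → ZMod 2) :=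
  LinearMap.range (cobd x y)

/-- The orthogonal complement. -/
def perp {E : Type*} [Fintype E] (C : Submodule (ZMod 2) (E → ZMod 2)) :
    Submodule (ZMod 2) (E → ZMod 2) where
  carrier := {g | ∀ c ∈ C, ∑ e, c e * g e = 0}
  zero_mem' := by
    intro c _
    simp
  add_mem' := by
    intro g h hg hh c hc
    simp only [Pi.add_apply, mul_add, sum_add_distrib]
    rw [hg c hc, hh c hc, add_zero]
  smul_mem' := by
    intro a g hg c hc
    simp only [Pi.smul_apply, smul_eq_mul]
    have := hg c hc
    calc ∑ e, c e * (a * g e) = a * ∑ e, c e * g e := by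
          rw [mul_sum]
          exact sum_congr rfl fun e _ => by ring
      _ = 0 := by rw [this, mul_zero]

/-- The intersection of `C` and `D` has codimension at most `k` in both of them: the matroids with
cocycle spaces `C` and `D` arise from each other by a rank-`k` perturbation. -/
def Near {E : Type*} [Fintype E] (k : ℕ) (C D : Submodule (ZMod 2) (E → ZMod 2)) : Prop :=
  Module.finrank (ZMod 2) C ≤ Module.finrank (ZMod 2) (C ⊓ D : Submodule (ZMod 2) (E → ZMod 2)) + k ∧
  Module.finrank (ZMod 2) D ≤ Module.finrank (ZMod 2) (C ⊓ D : Submodule (ZMod 2) (E → ZMod 2)) + k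

/-- `G` is the fundamental graph, with respect to the basis `B`, of the binary matroid with
cocycle space `C`. -/
structure IsFund {E : Type*} (C : Submodule (ZMod 2) (E → ZMod 2)) (B : Finset E)
    (G : SimpleGraph E) : Prop where
  bip : ∀ u v, G.Adj u v → (u ∈ B ↔ v ∉ B)
  mem : ∀ b ∈ B, (fun f => if f = b ∨ G.Adj b f then 1 else 0) ∈ C
  inj : ∀ c ∈ C, (∀ b ∈ B, c b = 0) → c = 0

/-- `G` is a fundamental graph of a binary matroid that is a rank-`k` perturbation of a graphic or
cographic matroid. -/
def IsPerturbed {E : Type*} [Fintype E] (k : ℕ) (G : SimpleGraph E) : Prop :=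
  ∃ (W : Type) (x y : E → W) (C : Submodule (ZMod 2) (E → ZMod 2)) (B : Finset E),
    (Near k C (cutSpace x y) ∨ Near k C (perp (cutSpace x y))) ∧ IsFund C B G

end Pool.Agent.Helper32.Piv
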