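import Pool.Agent.Helper32.Piv.Lam
import Pool.Agent.Helper32.Piv.Defs

/-!
# Cut spaces of graphs over the field with two elements and laminar families
-/

set_option autoImplicit false

open Finset
open scoped Classical

namespace Pool.Agent.Helper32.Piv

theorem zmod2_cases (a : ZMod 2) : a = 0 ∨ a = 1 := by
  fin_cases a
  · exact Or.inl rfl
  · exact Or.inr rfl

theorem zmod2_add_eq_zero {a b : ZMod 2} : a + b = 0 ↔ a = b := by
  revert a b; decide

theorem zmod2_add_self (a : ZMod 2) : a + a = 0 := by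
  revert a; decide

/-- `T` is a basis of the matroid with cocycle space `U` -/
structure IsBase {E : Type*} (U : Submodule (ZMod 2) (E → ZMod 2)) (T : Finset E) : Prop where
  inj : ∀ u ∈ U, (∀ t ∈ T, u t = 0) → u = 0
  surj : ∀ t ∈ T, ∃ u ∈ U, ∀ t' ∈ T, u t' = if t' = t then 1 else 0

section root
variable {E W : Type*} (x y : E → W)

/-- the components of the graph -/
def comp : Setoid W := Relation.EqvGen.setoid fun a b => ∃ e, a = x e ∧ b = y e

/-- a root in every component -/
noncomputable def root (w : W) : W := (Quotient.mk (comp x y) w).out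

theorem root_rel (w : W) : Relation.EqvGen (fun a b => ∃ e, a = x e ∧ b = y e) (root x y w) w :=
  Quotient.exact (s := comp x y) (Quotient.out_eq (Quotient.mk (comp x y) w))

theorem root_eq (e : E) : root x y (x e) = root x y (y e) := by
  unfold root
  congr 1
  apply Quotient.sound (s := comp x y)
  exact Relation.EqvGen.rel _ _ ⟨e, rfl, rfl⟩

theorem root_root (w : W) : root x y (root x y w) = root x y w := by
  unfold root
  congr 1
  exact Quotient.out_eq _

theorem mem_iff_root_mem {Q : Set W} (hQ : ∀ e, (x e ∈ Q ↔ y e ∈ Q)) (w : W) :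
    root x y w ∈ Q ↔ w ∈ Q := by
  have : ∀ a b, Relation.EqvGen (fun a b => ∃ e, a = x e ∧ b = y e) a b → (a ∈ Q ↔ b ∈ Q) := by
    intro a b h
    induction h with
    | rel a b h =>
      obtain ⟨e, rfl, rfl⟩ := h
      exact hQ e
    | refl a => exact Iff.rfl
    | symm a b _ ih => exact ih.symm
    | trans a b c _ _ ih1 ih2 => exact ih1.trans ih2
  exact this _ _ (root_rel x y w)

end root

/-- The fundamental cuts with respect to a basis form a laminar family. -/
theorem exists_laminar {E W : Type*} (x y : E → W) (T : Finset E) (hT : IsBase (cutSpace x y) T)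
    (f : E → E → ZMod 2) (hf : ∀ b ∈ T, f b ∈ cutSpace x y)
    (hfT : ∀ b ∈ T, ∀ t ∈ T, f b t = if t = b then 1 else 0) :
    ∃ S : E → Set W, (∀ b ∈ T, (S b).Nonempty) ∧ Lam S T ∧
      ∀ b ∈ T, ∀ e, f b e = 1 ↔ ¬ (x e ∈ S b ↔ y e ∈ S b) := by
  have hφ : ∀ b, ∃ φ : W → ZMod 2, b ∈ T → cobd x y φ = f b := by
    intro b
    by_cases hb : b ∈ T
    · obtain ⟨φ, hφ⟩ := hf b hb
      exact ⟨φ, fun _ => hφ⟩
    · exact ⟨0, fun h => absurd h hb⟩
  choose φ hφ using hφ
  set ψ : E → W → ZMod 2 := fun b w => φ b w + φ b (root x y w) with hψ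
  set S : E → Set W := fun b => {w | ψ b w = 1} with hS
  have hψe : ∀ b ∈ T, ∀ e, f b e = ψ b (x e) + ψ b (y e) := by
    intro b hb e
    rw [← hφ b hb]
    simp only [cobd, LinearMap.coe_mk, AddHom.coe_mk, hψ]
    rw [root_eq x y e]
    have := zmod2_add_self (φ b (root x y (y e)))
    linear_combination -this
  have hcross : ∀ b ∈ T, ∀ e, f b e = 1 ↔ ¬ (x e ∈ S b ↔ y e ∈ S b) := by
    intro b hb e
    rw [hψe b hb e]
    simp only [hS, Set.mem_ofPred_eq]
    rcases zmod2_cases (ψ b (x e)) with h | h <;> rcases zmod2_cases (ψ b (y e)) with h' | h' <;>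
      rw [h, h'] <;> decide
  have hroot : ∀ b w, root x y w ∉ S b := by
    intro b w
    simp only [hS, Set.mem_ofPred_eq, hψ, root_root, zmod2_add_self]
    decide
  -- a set of vertices without crossing basis edges and roots is empty
  have hempty : ∀ Q : Set W, (∀ t ∈ T, (x t ∈ Q ↔ y t ∈ Q)) → (∀ w, root x y w ∉ Q) →
      ∀ w, w ∉ Q := by
    intro Q hQ hr w hw
    have h1 : ∀ e, (x e ∈ Q ↔ y e ∈ Q) := by
      have h2 := hT.inj (cobd x y fun w => if w ∈ Q then 1 else 0) ⟨_, rfl⟩ (by
        intro t ht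
        simp only [cobd, LinearMap.coe_mk, AddHom.coe_mk]
        have := hQ t ht
        by_cases h : x t ∈ Q
        · rw [if_pos h, if_pos (this.1 h)]; decide
        · rw [if_neg h, if_neg (fun h' => h (this.2 h'))]; decide)
      intro e
      have h3 := congrFun h2 e
      simp only [cobd, LinearMap.coe_mk, AddHom.coe_mk, Pi.zero_apply] at h3
      by_cases h : x e ∈ Q <;> by_cases h' : y e ∈ Q
      · exact ⟨fun _ => h', fun _ => h⟩
      · rw [if_pos h, if_neg h'] at h3
        exact absurd h3 (by decide)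
      · rw [if_neg h, if_pos h'] at h3
        exact absurd h3 (by decide)
      · exact ⟨fun h'' => absurd h'' h, fun h'' => absurd h'' h'⟩
    exact hr w ((mem_iff_root_mem x y h1 w).2 hw)
  have hbb : ∀ b ∈ T, ¬ (x b ∈ S b ↔ y b ∈ S b) := by
    intro b hb
    rw [← hcross b hb b, hfT b hb b hb, if_pos rfl]
  have hbc : ∀ b ∈ T, ∀ c ∈ T, c ≠ b → (x c ∈ S b ↔ y c ∈ S b) := by
    intro b hb c hc hcb
    by_contra h
    rw [← hcross b hb c, hfT b hb c hc, if_neg hcb] at h
    exact absurd h (by decide)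
  refine ⟨S, ?_, ?_, hcross⟩
  · intro b hb
    by_contra h
    rw [Set.not_nonempty_iff_eq_empty] at h
    apply hbb b hb
    rw [h]
    simp
  · intro b hb c hc
    by_cases hbc' : c = b
    · subst hbc'
      exact Or.inr (Or.inl subset_rfl)
    have k1 := hbb b hb
    have k2 := hbb c hc
    have k3 := hbc b hb c hc hbc'
    have k4 := hbc c hc b hb (Ne.symm hbc')
    have k5 : ∀ t ∈ T, t ≠ b → t ≠ c → (x t ∈ S b ↔ y t ∈ S b) ∧ (x t ∈ S c ↔ y t ∈ S c) :=
      fun t ht h1 h2 => ⟨hbc b hb t ht h1, hbc c hc t ht h2⟩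
    by_cases p : x b ∈ S c <;> by_cases q : x c ∈ S b
    · -- the union
      exfalso
      have := hempty (S b ∪ S c) (by
        intro t ht
        simp only [Set.mem_union]
        by_cases h1 : t = b
        · rw [h1]
          exact ⟨fun _ => Or.inr (k4.1 p), fun _ => Or.inr p⟩
        by_cases h2 : t = c
        · rw [h2]
          exact ⟨fun _ => Or.inl (k3.1 q), fun _ => Or.inl q⟩
        exact or_congr (k5 t ht h1 h2).1 (k5 t ht h1 h2).2) (by
        intro w
        simp only [Set.mem_union, not_or]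
        exact ⟨hroot b w, hroot c w⟩)
      exact this (x b) (Or.inr p)
    · right; left
      have := hempty (S b \ S c) (by
        intro t ht
        simp only [Set.mem_sdiff]
        by_cases h1 : t = b
        · rw [h1]
          exact ⟨fun h => absurd p h.2, fun h => absurd (k4.1 p) h.2⟩
        by_cases h2 : t = c
        · rw [h2]
          exact ⟨fun h => absurd h.1 q, fun h => absurd (k3.2 h.1) q⟩
        exact and_congr (k5 t ht h1 h2).1 (not_congr (k5 t ht h1 h2).2)) (by
        intro w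
        simp only [Set.mem_sdiff]
        exact fun h => hroot b w h.1)
      intro w hw
      by_contra h
      exact this w ⟨hw, h⟩
    · right; right
      have := hempty (S c \ S b) (by
        intro t ht
        simp only [Set.mem_sdiff]
        by_cases h1 : t = b
        · rw [h1]
          exact ⟨fun h => absurd h.1 p, fun h => absurd (k4.2 h.1) p⟩
        by_cases h2 : t = c
        · rw [h2]
          exact ⟨fun h => absurd q h.2, fun h => absurd (k3.1 q) h.2⟩
        exact and_congr (k5 t ht h1 h2).2 (not_congr (k5 t ht h1 h2).1)) (by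
        intro w
        simp only [Set.mem_sdiff]
        exact fun h => hroot c w h.1)
      intro w hw
      by_contra h
      exact this w ⟨hw, h⟩
    · left
      have := hempty (S b ∩ S c) (by
        intro t ht
        simp only [Set.mem_inter_iff]
        by_cases h1 : t = b
        · rw [h1]
          exact ⟨fun h => absurd h.2 p, fun h => absurd (k4.2 h.2) p⟩
        by_cases h2 : t = c
        · rw [h2]
          exact ⟨fun h => absurd h.1 q, fun h => absurd (k3.2 h.1) q⟩
        exact and_congr (k5 t ht h1 h2).1 (k5 t ht h1 h2).2) (by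
        intro w
        simp only [Set.mem_inter_iff]
        exact fun h => hroot b w h.1)
      rw [Set.disjoint_left]
      intro w h1 h2
      exact this w ⟨h1, h2⟩

section base
variable {E : Type*} [Fintype E]

theorem exists_base_subset (U : Submodule (ZMod 2) (E → ZMod 2)) (T : Finset E)
    (hT : ∀ u ∈ U, (∀ t ∈ T, u t = 0) → u = 0) : ∃ T₀ ⊆ T, IsBase U T₀ := by
  set F := T.powerset.filter fun T' => ∀ u ∈ U, (∀ t ∈ T', u t = 0) → u = 0 with hF
  obtain ⟨T₀, hT₀, hmin⟩ := exists_min_image F card ⟨T, by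
    simp only [hF, mem_filter, mem_powerset]
    exact ⟨subset_rfl, hT⟩⟩
  have hT₀' := hT₀
  simp only [hF, mem_filter, mem_powerset] at hT₀'
  refine ⟨T₀, hT₀'.1, hT₀'.2, ?_⟩
  intro t ht
  have h1 : T₀.erase t ∉ F := by
    intro h
    have h2 := hmin _ h
    have h3 := card_erase_lt_of_mem ht
    omega
  simp only [hF, mem_filter, mem_powerset, not_and, not_forall] at h1
  obtain ⟨u, hu, hu1, hu2⟩ := h1 ((erase_subset _ _).trans hT₀'.1)
  refine ⟨u, hu, fun t' ht' => ?_⟩
  by_cases h : t' = t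
  · subst h
    rw [if_pos rfl]
    rcases zmod2_cases (u t') with h0 | h0
    · exfalso
      apply hu2
      apply hT₀'.2 u hu
      intro r hr
      by_cases hr' : r = t'
      · rw [hr', h0]
      · exact hu1 r (mem_erase.2 ⟨hr', hr⟩)
    · exact h0
  · rw [if_neg h]
    exact hu1 t' (mem_erase.2 ⟨h, ht'⟩)

theorem exists_base_superset (U D : Submodule (ZMod 2) (E → ZMod 2)) (hUD : U ≤ D)
    (T : Finset E) (hT : IsBase U T) : ∃ T₁, T ⊆ T₁ ∧ IsBase D T₁ := by
  set F := (univ : Finset (Finset E)).filter fun T' => T ⊆ T' ∧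
    ∀ u ∈ D, (∀ t ∈ T', u t = 0) → u = 0 with hF
  obtain ⟨T₁, hT₁, hmin⟩ := exists_min_image F card ⟨univ, by
    simp only [hF, mem_filter, mem_univ, true_and]
    refine ⟨subset_univ _, fun u _ h => ?_⟩
    ext e
    exact h e trivial⟩
  have hT₁' := hT₁
  simp only [hF, mem_filter, mem_univ, true_and] at hT₁'
  have hout : ∀ t ∈ T₁, t ∉ T → ∃ u ∈ D, ∀ t' ∈ T₁, u t' = if t' = t then 1 else 0 := by
    intro t ht htT
    have h1 : T₁.erase t ∉ F := by
      intro h
      have h2 := hmin _ h
      have h3 := card_erase_lt_of_mem ht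
      omega
    simp only [hF, mem_filter, mem_univ, true_and, not_and, not_forall] at h1
    obtain ⟨u, hu, hu1, hu2⟩ := h1 (fun r hr => mem_erase.2
      ⟨fun h => htT (h ▸ hr), hT₁'.1 hr⟩)
    refine ⟨u, hu, fun t' ht' => ?_⟩
    by_cases h : t' = t
    · subst h
      rw [if_pos rfl]
      rcases zmod2_cases (u t') with h0 | h0
      · exfalso
        apply hu2
        apply hT₁'.2 u hu
        intro r hr
        by_cases hr' : r = t'
        · rw [hr', h0]
        · exact hu1 r (mem_erase.2 ⟨hr', hr⟩)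
      · exact h0
    · rw [if_neg h]
      exact hu1 t' (mem_erase.2 ⟨h, ht'⟩)
  have hout' : ∀ t, ∃ u ∈ D, t ∈ T₁ → t ∉ T → ∀ t' ∈ T₁, u t' = if t' = t then 1 else 0 := by
    intro t
    by_cases h : t ∈ T₁ ∧ t ∉ T
    · obtain ⟨u, hu, h2⟩ := hout t h.1 h.2
      exact ⟨u, hu, fun _ _ => h2⟩
    · exact ⟨0, D.zero_mem, fun h1 h2 => absurd ⟨h1, h2⟩ h⟩
  choose v hv hv' using hout'
  refine ⟨T₁, hT₁'.1, hT₁'.2, fun t ht => ?_⟩
  by_cases htT : t ∈ T
  · obtain ⟨u, hu, hu'⟩ := hT.surj t htT
    refine ⟨u - ∑ r ∈ T₁ \ T, u r • v r, D.sub_mem (hUD hu) (D.sum_mem fun r _ =>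
      D.smul_mem _ (hv r)), fun t' ht' => ?_⟩
    simp only [Pi.sub_apply, Finset.sum_apply, Pi.smul_apply, smul_eq_mul]
    have hsum : ∑ r ∈ T₁ \ T, u r * v r t' = if t' ∈ T then 0 else u t' := by
      have h1 : ∀ r ∈ T₁ \ T, u r * v r t' = if t' = r then u r else 0 := by
        intro r hr
        rw [mem_sdiff] at hr
        rw [hv' r hr.1 hr.2 t' ht']
        split_ifs <;> simp
      rw [sum_congr rfl h1, sum_ite_eq]
      by_cases h : t' ∈ T
      · rw [if_pos h, if_neg (fun h' => (mem_sdiff.1 h').2 h)]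
      · rw [if_neg h, if_pos (mem_sdiff.2 ⟨ht', h⟩)]
    rw [hsum]
    by_cases h : t' ∈ T
    · rw [if_pos h, sub_zero, hu' t' h]
    · rw [if_neg h, sub_self, if_neg (fun h' : t' = t => h (h' ▸ htT))]
  · exact hout t ht htT

theorem IsBase.finrank_eq {U : Submodule (ZMod 2) (E → ZMod 2)} {T : Finset E}
    (hT : IsBase U T) : Module.finrank (ZMod 2) U = T.card := by
  let ρ : U →ₗ[ZMod 2] (T → ZMod 2) :=
    { toFun := fun u t => u.1 t.1
      map_add' := fun u v => rfl
      map_smul' := fun a u => rfl }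
  have hinj : Function.Injective ρ := by
    rw [← LinearMap.ker_eq_bot, LinearMap.ker_eq_bot']
    intro u hu
    apply Subtype.ext
    exact hT.inj u.1 u.2 fun t ht => congrFun hu ⟨t, ht⟩
  have hsurj : Function.Surjective ρ := by
    rw [← LinearMap.range_eq_top, eq_top_iff, ← (Pi.basisFun (ZMod 2) T).span_eq,
      Submodule.span_le]
    rintro _ ⟨t, rfl⟩
    obtain ⟨u, hu, hu'⟩ := hT.surj t.1 t.2
    refine ⟨⟨u, hu⟩, ?_⟩
    ext t'
    simp only [ρ, LinearMap.coe_mk, AddHom.coe_mk, Pi.basisFun_apply]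
    rw [hu' t'.1 t'.2, Pi.single_apply]
    by_cases h : t' = t
    · rw [if_pos h, if_pos (congrArg Subtype.val h)]
    · rw [if_neg h, if_neg fun h' => h (Subtype.ext h')]
  rw [(LinearEquiv.ofBijective ρ ⟨hinj, hsurj⟩).finrank_eq, Module.finrank_fintype_fun_eq_card,
    Fintype.card_coe]

omit [Fintype E] in
theorem IsBase.exists_fund {U : Submodule (ZMod 2) (E → ZMod 2)} {T : Finset E}
    (hT : IsBase U T) : ∃ f : E → E → ZMod 2, (∀ b, f b ∈ U) ∧
      ∀ b ∈ T, ∀ t ∈ T, f b t = if t = b then 1 else 0 := by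
  have : ∀ b, ∃ u ∈ U, b ∈ T → ∀ t ∈ T, u t = if t = b then 1 else 0 := by
    intro b
    by_cases hb : b ∈ T
    · obtain ⟨u, hu, h⟩ := hT.surj b hb
      exact ⟨u, hu, fun _ => h⟩
    · exact ⟨0, U.zero_mem, fun h => absurd h hb⟩
  choose f hf hf' using this
  exact ⟨f, hf, hf'⟩

omit [Fintype E] in
/-- expansion in fundamental vectors -/
theorem IsBase.expand {U : Submodule (ZMod 2) (E → ZMod 2)} {T : Finset E}
    (hT : IsBase U T) (f : E → E → ZMod 2) (hf : ∀ b ∈ T, f b ∈ U)
    (hfT : ∀ b ∈ T, ∀ t ∈ T, f b t = if t = b then 1 else 0) (u : E → ZMod 2) (hu : u ∈ U) :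
    u = ∑ b ∈ T, u b • f b := by
  rw [← sub_eq_zero]
  apply hT.inj
  · exact U.sub_mem hu (U.sum_mem fun b hb => U.smul_mem _ (hf b hb))
  · intro t ht
    simp only [Pi.sub_apply, Finset.sum_apply, Pi.smul_apply, smul_eq_mul]
    rw [sum_congr rfl fun b hb => by rw [hfT b hb t ht], sub_eq_zero]
    simp [ht]

end base

end Pool.Agent.Helper32.Piv
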