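import Mathlib

/-!
# Zarankiewicz type bounds for laminar families and pairs of points

`S` is a laminar family of nonempty sets and `x i`, `y i` are points. The set `S e` is incident with
the pair `i` when it contains exactly one of the two points.
-/

set_option autoImplicit false

open Finset
open scoped Classical

namespace Pool.Agent.Helper32.Piv

variable {ε ι W : Type*}

/-- `r` has no complete `s` by `s` subrelation on `A × J`. -/
def KFree (r : ε → ι → Prop) (s : ℕ) (A : Finset ε) (J : Finset ι) : Prop :=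
  ∀ A' ⊆ A, ∀ J' ⊆ J, s ≤ A'.card → s ≤ J'.card → ∃ e ∈ A', ∃ i ∈ J', ¬ r e i

/-- number of pairs of `A × J` in relation `r` -/
noncomputable def cnt (r : ε → ι → Prop) (A : Finset ε) (J : Finset ι) : ℕ :=
  ((A ×ˢ J).filter fun p => r p.1 p.2).card

theorem KFree.mono {r r' : ε → ι → Prop} {s : ℕ} {A A₁ : Finset ε} {J J₁ : Finset ι}
    (h : KFree r s A J) (hr : ∀ e ∈ A₁, ∀ i ∈ J₁, r' e i → r e i) (hA : A₁ ⊆ A) (hJ : J₁ ⊆ J) :
    KFree r' s A₁ J₁ := by
  intro A' hA' J' hJ' h1 h2
  obtain ⟨e, he, i, hi, hei⟩ := h A' (hA'.trans hA) J' (hJ'.trans hJ) h1 h2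
  exact ⟨e, he, i, hi, fun h => hei (hr e (hA' he) i (hJ' hi) h)⟩

theorem cnt_le_mul (r : ε → ι → Prop) (A : Finset ε) (J : Finset ι) :
    cnt r A J ≤ A.card * J.card := by
  unfold cnt
  rw [← card_product]
  exact card_le_card (filter_subset _ _)

theorem cnt_eq_sum_left (r : ε → ι → Prop) (A : Finset ε) (J : Finset ι) :
    cnt r A J = ∑ e ∈ A, (J.filter fun i => r e i).card := by
  unfold cnt
  rw [card_filter, sum_product]
  exact sum_congr rfl fun e _ => (card_filter _ _).symm

theorem cnt_eq_sum_right (r : ε → ι → Prop) (A : Finset ε) (J : Finset ι) :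
    cnt r A J = ∑ i ∈ J, (A.filter fun e => r e i).card := by
  unfold cnt
  rw [card_filter, sum_product_right]
  exact sum_congr rfl fun e _ => (card_filter _ _).symm

theorem cnt_mono {r r' : ε → ι → Prop} {A : Finset ε} {J : Finset ι}
    (h : ∀ e ∈ A, ∀ i ∈ J, r e i → r' e i) : cnt r A J ≤ cnt r' A J := by
  unfold cnt
  apply card_le_card
  intro p hp
  simp only [mem_filter, mem_product] at hp ⊢
  exact ⟨hp.1, h _ hp.1.1 _ hp.1.2 hp.2⟩

theorem cnt_or_le (r r' : ε → ι → Prop) (A : Finset ε) (J : Finset ι) :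
    cnt (fun e i => r e i ∨ r' e i) A J ≤ cnt r A J + cnt r' A J := by
  unfold cnt
  refine le_trans (card_le_card ?_) (card_union_le _ _)
  intro p hp
  simp only [mem_filter, mem_union] at hp ⊢
  tauto

/-- A relation all rows of which are, inside every column, nested upwards. -/
theorem cnt_le_of_up {r : ε → ι → Prop} {s : ℕ} {A : Finset ε} {J : Finset ι}
    (hK : KFree r s A J) (up : ε → ι → Finset ε)
    (h1 : ∀ e ∈ A, ∀ i ∈ J, r e i → e ∈ up e i)
    (h2 : ∀ e ∈ A, ∀ f ∈ A, ∀ i ∈ J, r e i → r f i → f ∈ up e i ∨ up e i ⊆ up f i)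
    (h3 : ∀ e ∈ A, ∀ i ∈ J, ∀ j ∈ J, r e i → r e j → up e i ⊆ up e j ∨ up e j ⊆ up e i)
    (h4 : ∀ e ∈ A, ∀ i ∈ J, r e i → up e i ⊆ A)
    (h5 : ∀ e ∈ A, ∀ i ∈ J, r e i → ∀ f ∈ up e i, r f i) :
    cnt r A J ≤ s * (A.card + J.card) := by
  have hsplit : cnt r A J ≤ cnt (fun e i => r e i ∧ (up e i).card < s) A J +
      cnt (fun e i => r e i ∧ s ≤ (up e i).card) A J := by
    refine (cnt_mono fun e _ i _ h => ?_).trans (cnt_or_le _ _ _ _)
    rcases lt_or_ge (up e i).card s with h' | h'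
    · exact Or.inl ⟨h, h'⟩
    · exact Or.inr ⟨h, h'⟩
  have hshallow : cnt (fun e i => r e i ∧ (up e i).card < s) A J ≤ J.card * s := by
    rw [cnt_eq_sum_right]
    rw [← smul_eq_mul]
    apply sum_le_card_nsmul
    intro i hi
    have key : ∀ Z : Finset ε, (∀ e, e ∈ Z ↔ e ∈ A ∧ r e i ∧ (up e i).card < s) →
        Z.card ≤ s := by
      intro Z hZ
      rcases Z.eq_empty_or_nonempty with hZe | hZn
      · rw [hZe]; simp
      · obtain ⟨e0, he0, hmax⟩ := exists_max_image Z (fun e => (up e i).card) hZn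
        have he0' := (hZ e0).1 he0
        have hsub : Z ⊆ up e0 i := by
          intro f hf
          have hf' := (hZ f).1 hf
          rcases h2 e0 he0'.1 f hf'.1 i hi he0'.2.1 hf'.2.1 with h | h
          · exact h
          · have := eq_of_subset_of_card_le h (hmax f hf)
            rw [this]
            exact h1 f hf'.1 i hi hf'.2.1
        exact (card_le_card hsub).trans he0'.2.2.le
    exact key _ fun e => by simp only [mem_filter]
  have hdeep : cnt (fun e i => r e i ∧ s ≤ (up e i).card) A J ≤ A.card * s := by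
    rw [cnt_eq_sum_left]
    rw [← smul_eq_mul]
    apply sum_le_card_nsmul
    intro e he
    have key : ∀ Z : Finset ι, (∀ i, i ∈ Z ↔ i ∈ J ∧ r e i ∧ s ≤ (up e i).card) →
        Z.card ≤ s := by
      intro Z hZ
      by_contra hcon
      push Not at hcon
      have hZn : Z.Nonempty := by
        rw [← card_pos]; omega
      obtain ⟨i0, hi0, hmin⟩ := exists_min_image Z (fun i => (up e i).card) hZn
      have hi0' := (hZ i0).1 hi0
      have hsub : ∀ i ∈ Z, up e i0 ⊆ up e i := by
        intro i hi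
        have hi' := (hZ i).1 hi
        rcases h3 e he i0 hi0'.1 i hi'.1 hi0'.2.1 hi'.2.1 with h | h
        · exact h
        · exact (eq_of_subset_of_card_le h (hmin i hi)).ge
      obtain ⟨f, hf, i, hi, hfi⟩ := hK (up e i0) (h4 e he i0 hi0'.1 hi0'.2.1) Z
        (fun i hi => ((hZ i).1 hi).1) hi0'.2.2 hcon.le
      have hi' := (hZ i).1 hi
      exact hfi (h5 e he i hi'.1 hi'.2.1 f (hsub i hi hf))
    exact key _ fun e => by simp only [mem_filter]
  calc cnt r A J ≤ J.card * s + A.card * s := by omega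
    _ = s * (A.card + J.card) := by ring

/-- laminarity -/
def Lam (S : ε → Set W) (A : Finset ε) : Prop :=
  ∀ e ∈ A, ∀ f ∈ A, Disjoint (S e) (S f) ∨ S e ⊆ S f ∨ S f ⊆ S e

theorem Lam.of_mem {S : ε → Set W} {A : Finset ε} (h : Lam S A) {e f : ε} (he : e ∈ A)
    (hf : f ∈ A) {w : W} (hwe : w ∈ S e) (hwf : w ∈ S f) : S e ⊆ S f ∨ S f ⊆ S e := by
  rcases h e he f hf with h | h
  · exact absurd hwf (Set.disjoint_left.1 h hwe)
  · exact h

/-- the oriented incidences -/
theorem cnt_oriented {S : ε → Set W} {x y : ι → W} {s : ℕ} {A : Finset ε} {J : Finset ι}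
    (hL : Lam S A) (hK : KFree (fun e i => x i ∈ S e ∧ y i ∉ S e) s A J) :
    cnt (fun e i => x i ∈ S e ∧ y i ∉ S e) A J ≤ s * (A.card + J.card) := by
  apply cnt_le_of_up hK (fun e i => A.filter fun f => S e ⊆ S f ∧ y i ∉ S f)
  · intro e he i _ h
    simp only [mem_filter]
    exact ⟨he, subset_rfl, h.2⟩
  · intro e he f hf i _ h h'
    rcases hL.of_mem he hf h.1 h'.1 with h3 | h3
    · left
      simp only [mem_filter]
      exact ⟨hf, h3, h'.2⟩
    · right
      intro g hg
      simp only [mem_filter] at hg ⊢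
      exact ⟨hg.1, h3.trans hg.2.1, hg.2.2⟩
  · intro e he i _ j _ h h'
    by_contra hcon
    push Not at hcon
    obtain ⟨h1, h2⟩ := hcon
    rw [not_subset] at h1 h2
    obtain ⟨f, hf, hf'⟩ := h1
    obtain ⟨g, hg, hg'⟩ := h2
    simp only [mem_filter, not_and, not_not] at hf hf' hg hg'
    have h3 := hf' hf.1 hf.2.1
    have h4 := hg' hg.1 hg.2.1
    rcases hL.of_mem hf.1 hg.1 (hf.2.1 h.1) (hg.2.1 h.1) with h5 | h5
    · exact hg.2.2 (h5 h3)
    · exact hf.2.2 (h5 h4)
  · intro e _ i _ _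
    exact filter_subset _ _
  · intro e _ i _ h f hf
    simp only [mem_filter] at hf
    exact ⟨hf.2.1 h.1, hf.2.2⟩

/-- pairs with both points in the set -/
theorem cnt_in {S : ε → Set W} {x y : ι → W} {s : ℕ} {A : Finset ε} {J : Finset ι}
    (hL : Lam S A) (hK : KFree (fun e i => x i ∈ S e ∧ y i ∈ S e) s A J) :
    cnt (fun e i => x i ∈ S e ∧ y i ∈ S e) A J ≤ s * (A.card + J.card) := by
  apply cnt_le_of_up hK (fun e _ => A.filter fun f => S e ⊆ S f)
  · intro e he i _ h
    simp only [mem_filter]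
    exact ⟨he, subset_rfl⟩
  · intro e he f hf i _ h h'
    rcases hL.of_mem he hf h.1 h'.1 with h3 | h3
    · left
      simp only [mem_filter]
      exact ⟨hf, h3⟩
    · right
      intro g hg
      simp only [mem_filter] at hg ⊢
      exact ⟨hg.1, h3.trans hg.2⟩
  · intro e he i _ j _ h h'
    exact Or.inl subset_rfl
  · intro e _ i _ _
    exact filter_subset _ _
  · intro e _ i _ h f hf
    simp only [mem_filter] at hf
    exact ⟨hf.2 h.1, hf.2 h.2⟩

/-- a union of classes of size between `s` and `2 s` -/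
theorem exists_group {κ : Type*} (cl : ε → κ) (s : ℕ) (hs : 0 < s) (N : Finset ε)
    (hcl : ∀ e ∈ N, (N.filter fun f => cl f = cl e).card < s) (hN : s ≤ N.card) :
    ∃ Z ⊆ N, s ≤ Z.card ∧ Z.card < 2 * s ∧ ∀ a ∈ Z, ∀ b ∈ N, cl b = cl a → b ∈ Z := by
  set F := N.powerset.filter fun Z => s ≤ Z.card ∧ ∀ a ∈ Z, ∀ b ∈ N, cl b = cl a → b ∈ Z with hF
  have hFn : F.Nonempty := ⟨N, by
    simp only [hF, mem_filter, mem_powerset]
    exact ⟨subset_rfl, hN, fun _ _ b hb _ => hb⟩⟩
  obtain ⟨Z, hZ, hmin⟩ := exists_min_image F card hFn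
  have hZ' := hZ
  simp only [hF, mem_filter, mem_powerset] at hZ'
  refine ⟨Z, hZ'.1, hZ'.2.1, ?_, hZ'.2.2⟩
  have hZn : Z.Nonempty := by rw [← card_pos]; omega
  obtain ⟨z, hz⟩ := hZn
  set Z1 := Z.filter fun f => cl f ≠ cl z with hZ1
  have h1 : Z.card = (Z.filter fun f => cl f = cl z).card + Z1.card :=
    (card_filter_add_card_filter_not _).symm
  have h2 : (Z.filter fun f => cl f = cl z).card < s :=
    lt_of_le_of_lt (card_le_card (filter_subset_filter _ hZ'.1)) (hcl z (hZ'.1 hz))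
  have h3 : Z1.card < s := by
    by_contra hcon
    push Not at hcon
    have hmem : Z1 ∈ F := by
      simp only [hF, mem_filter, mem_powerset]
      refine ⟨(filter_subset _ _).trans hZ'.1, hcon, fun a ha b hb hab => ?_⟩
      simp only [hZ1, mem_filter] at ha ⊢
      exact ⟨hZ'.2.2 a ha.1 b hb hab, hab ▸ ha.2⟩
    have h4 := hmin Z1 hmem
    have h5 : 0 < (Z.filter fun f => cl f = cl z).card :=
      card_pos.2 ⟨z, by simp [hz]⟩
    omega
  omega

/-- pairs with both points outside the set -/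
theorem cnt_out {S : ε → Set W} {x y : ι → W} {s : ℕ} {A : Finset ε} {J : Finset ι}
    (hs : 0 < s) (hne : ∀ e ∈ A, (S e).Nonempty) (hL : Lam S A)
    (hK : KFree (fun e i => (x i ∈ S e ↔ y i ∈ S e)) s A J) :
    cnt (fun e i => x i ∉ S e ∧ y i ∉ S e) A J ≤ s * (3 * A.card + 5 * J.card) := by
  rcases lt_or_ge J.card (3 * s) with hJ | hJ
  · calc _ ≤ A.card * J.card := cnt_le_mul _ _ _
      _ ≤ A.card * (3 * s) := Nat.mul_le_mul_left _ hJ.le
      _ ≤ s * (3 * A.card + 5 * J.card) := by nlinarith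
  set N := A.filter fun e => s ≤ (J.filter fun i => x i ∉ S e ∧ y i ∉ S e).card with hN
  have hND : ∀ e ∈ N, (A.filter fun f => S f ⊆ S e).card < s := by
    intro e he
    by_contra hcon
    push Not at hcon
    simp only [hN, mem_filter] at he
    obtain ⟨f, hf, i, hi, hfi⟩ := hK _ (filter_subset (fun f => S f ⊆ S e) A) _
      (filter_subset (fun i => x i ∉ S e ∧ y i ∉ S e) J) hcon he.2
    simp only [mem_filter] at hf hi
    exact hfi ⟨fun h => absurd (hf.2 h) hi.2.1, fun h => absurd (hf.2 h) hi.2.2⟩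
  have hNc : N.card < 5 * s := by
    by_contra hcon
    push Not at hcon
    -- classes
    set cl : ε → Set W := fun e => ⋃ g ∈ N.filter (fun g => S e ⊆ S g), S g with hcl
    have hcl1 : ∀ e ∈ N, ∀ f ∈ N, S e ⊆ S f → cl e = cl f := by
      intro e he f hf hef
      obtain ⟨w, hw⟩ := hne e (mem_filter.1 he).1
      ext z
      simp only [hcl, Set.mem_iUnion, mem_filter, exists_prop]
      constructor
      · rintro ⟨g, ⟨hg, hg1⟩, hz⟩
        rcases hL.of_mem (mem_filter.1 hg).1 (mem_filter.1 hf).1 (hg1 hw) (hef hw) with h | h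
        · exact ⟨f, ⟨hf, subset_rfl⟩, h hz⟩
        · exact ⟨g, ⟨hg, h⟩, hz⟩
      · rintro ⟨g, ⟨hg, hg1⟩, hz⟩
        exact ⟨g, ⟨hg, hef.trans hg1⟩, hz⟩
    have hcl2 : ∀ e ∈ N, ∀ f ∈ N, ∀ w, w ∈ S e → w ∈ S f → cl e = cl f := by
      intro e he f hf w h h'
      rcases hL.of_mem (mem_filter.1 he).1 (mem_filter.1 hf).1 h h' with h3 | h3
      · exact hcl1 e he f hf h3
      · exact (hcl1 f hf e he h3).symm
    have hcl3 : ∀ e ∈ N, ∃ g ∈ N, cl e = S g := by
      intro e he
      obtain ⟨w, hw⟩ := hne e (mem_filter.1 he).1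
      obtain ⟨g, hg, hmax⟩ := exists_max_image (N.filter fun g => S e ⊆ S g)
        (fun g => (A.filter fun f => S f ⊆ S g).card) ⟨e, by simp [he]⟩
      have hg' := hg
      simp only [mem_filter] at hg'
      refine ⟨g, hg'.1, ?_⟩
      apply Set.Subset.antisymm
      · intro z hz
        simp only [hcl, Set.mem_iUnion, mem_filter, exists_prop] at hz
        obtain ⟨h, hh, hzh⟩ := hz
        rcases hL.of_mem (mem_filter.1 hh.1).1 (mem_filter.1 hg'.1).1 (hh.2 hw) (hg'.2 hw) with
          h1 | h1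
        · exact h1 hzh
        · have h2 : (A.filter fun f => S f ⊆ S g) ⊆ (A.filter fun f => S f ⊆ S h) := by
            intro f hf
            simp only [mem_filter] at hf ⊢
            exact ⟨hf.1, hf.2.trans h1⟩
          have h3 := eq_of_subset_of_card_le h2 (hmax h (by simp [hh.1, hh.2]))
          have h4 : h ∈ A.filter fun f => S f ⊆ S h := by
            simp [(mem_filter.1 hh.1).1]
          rw [← h3] at h4
          exact (mem_filter.1 h4).2 hzh
      · intro z hz
        simp only [hcl, Set.mem_iUnion, mem_filter, exists_prop]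
        exact ⟨g, ⟨hg'.1, hg'.2⟩, hz⟩
    have hsub : ∀ f ∈ N, S f ⊆ cl f := by
      intro f hf z hz
      simp only [hcl, Set.mem_iUnion, mem_filter, exists_prop]
      exact ⟨f, ⟨hf, subset_rfl⟩, hz⟩
    have hsmall : ∀ M ⊆ N, ∀ e ∈ M, (M.filter fun f => cl f = cl e).card < s := by
      intro M hM e he
      obtain ⟨g, hg, hge⟩ := hcl3 e (hM he)
      refine lt_of_le_of_lt (card_le_card ?_) (hND g hg)
      intro f hf
      simp only [mem_filter] at hf ⊢
      refine ⟨(mem_filter.1 (hM hf.1)).1, ?_⟩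
      rw [← hge, ← hf.2]
      exact hsub f (hM hf.1)
    obtain ⟨Z1, hZ1, h11, h12, h13⟩ := exists_group cl s hs N (hsmall N subset_rfl) (by omega)
    have hc1 : (N \ Z1).card = N.card - Z1.card := card_sdiff_of_subset hZ1
    obtain ⟨Z2, hZ2, h21, h22, h23⟩ := exists_group cl s hs (N \ Z1)
      (hsmall _ sdiff_subset) (by omega)
    have hc2 : ((N \ Z1) \ Z2).card = (N \ Z1).card - Z2.card := card_sdiff_of_subset hZ2
    obtain ⟨Z3, hZ3, h31, h32, h33⟩ := exists_group cl s hs ((N \ Z1) \ Z2)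
      (hsmall _ (sdiff_subset.trans sdiff_subset)) (by omega)
    have hZ2N : Z2 ⊆ N := hZ2.trans sdiff_subset
    have hZ3N : Z3 ⊆ N := hZ3.trans (sdiff_subset.trans sdiff_subset)
    -- every pair misses one of the three groups
    have hmiss : ∀ i, (∀ f ∈ Z1, (x i ∈ S f ↔ y i ∈ S f)) ∨ (∀ f ∈ Z2, (x i ∈ S f ↔ y i ∈ S f)) ∨
        (∀ f ∈ Z3, (x i ∈ S f ↔ y i ∈ S f)) := by
      intro i
      by_contra hcon
      push Not at hcon
      obtain ⟨⟨a, ha, ha'⟩, ⟨b, hb, hb'⟩, c, hc, hc'⟩ := hcon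
      have hab : cl a ≠ cl b := fun h => (mem_sdiff.1 (hZ2 hb)).2 (h13 a ha b (hZ2N hb) h.symm)
      have hac : cl a ≠ cl c := fun h =>
        (mem_sdiff.1 (mem_sdiff.1 (hZ3 hc)).1).2 (h13 a ha c (hZ3N hc) h.symm)
      have hbc : cl b ≠ cl c := fun h =>
        (mem_sdiff.1 (hZ3 hc)).2 (h23 b hb c (mem_sdiff.1 (hZ3 hc)).1 h.symm)
      have k1 := hcl2 a (hZ1 ha) b (hZ2N hb)
      have k2 := hcl2 a (hZ1 ha) c (hZ3N hc)
      have k3 := hcl2 b (hZ2N hb) c (hZ3N hc)
      rcases ha' with ⟨a1, a2⟩ | ⟨a1, a2⟩ <;> rcases hb' with ⟨b1, b2⟩ | ⟨b1, b2⟩ <;>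
        rcases hc' with ⟨c1, c2⟩ | ⟨c1, c2⟩
      · exact hab (k1 _ a1 b1)
      · exact hab (k1 _ a1 b1)
      · exact hac (k2 _ a1 c1)
      · exact hbc (k3 _ b2 c2)
      · exact hbc (k3 _ b1 c1)
      · exact hac (k2 _ a2 c2)
      · exact hab (k1 _ a2 b2)
      · exact hab (k1 _ a2 b2)
    -- pigeonhole
    have hcov : J ⊆ (J.filter fun i => ∀ f ∈ Z1, (x i ∈ S f ↔ y i ∈ S f)) ∪
        ((J.filter fun i => ∀ f ∈ Z2, (x i ∈ S f ↔ y i ∈ S f)) ∪
        (J.filter fun i => ∀ f ∈ Z3, (x i ∈ S f ↔ y i ∈ S f))) := by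
      intro i hi
      simp only [mem_union, mem_filter]
      rcases hmiss i with h | h | h
      · exact Or.inl ⟨hi, h⟩
      · exact Or.inr (Or.inl ⟨hi, h⟩)
      · exact Or.inr (Or.inr ⟨hi, h⟩)
    have hcard := (card_le_card hcov).trans ((card_union_le _ _).trans
      (Nat.add_le_add_left (card_union_le _ _) _))
    have hfin : ∀ Z ⊆ N, s ≤ Z.card →
        (J.filter fun i => ∀ f ∈ Z, (x i ∈ S f ↔ y i ∈ S f)).card < s := by
      intro Z hZ hZs
      by_contra hcon2
      push Not at hcon2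
      obtain ⟨f, hf, i, hi, hfi⟩ := hK Z (hZ.trans (filter_subset _ _)) _
        (filter_subset (fun i => ∀ f ∈ Z, (x i ∈ S f ↔ y i ∈ S f)) J) hZs hcon2
      simp only [mem_filter] at hi
      exact hfi (hi.2 f hf)
    have g1 := hfin Z1 hZ1 h11
    have g2 := hfin Z2 hZ2N h21
    have g3 := hfin Z3 hZ3N h31
    omega
  have hrow : ∀ e, ∀ Z : Finset ι, (∀ i, i ∈ Z ↔ i ∈ J ∧ (x i ∉ S e ∧ y i ∉ S e)) →
      Z = J.filter fun i => x i ∉ S e ∧ y i ∉ S e := by
    intro e Z hZ
    ext i
    rw [hZ, mem_filter]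
  rw [cnt_eq_sum_left]
  have hb : ∀ e ∈ A, (J.filter fun i => x i ∉ S e ∧ y i ∉ S e).card ≤
      s + if e ∈ N then J.card else 0 := by
    intro e he
    by_cases heN : e ∈ N
    · rw [if_pos heN]
      exact (card_le_card (filter_subset _ _)).trans (Nat.le_add_left _ _)
    · rw [if_neg heN]
      have : ¬ s ≤ (J.filter fun i => x i ∉ S e ∧ y i ∉ S e).card := fun h =>
        heN (mem_filter.2 ⟨he, h⟩)
      omega
  calc _ ≤ ∑ e ∈ A, (s + if e ∈ N then J.card else 0) := by
        apply sum_le_sum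
        intro e he
        refine le_trans (le_of_eq ?_) (hb e he)
        exact congrArg card (hrow e _ fun i => by simp only [mem_filter])
    _ = A.card * s + N.card * J.card := by
        rw [sum_add_distrib, sum_const, smul_eq_mul, ← sum_filter, sum_const, smul_eq_mul]
        congr 3
        ext e
        simp only [mem_filter, hN]
        tauto
    _ ≤ A.card * s + (5 * s) * J.card := by gcongr
    _ ≤ s * (3 * A.card + 5 * J.card) := by nlinarith

/-- incidences -/
theorem cnt_inc {S : ε → Set W} {x y : ι → W} {s : ℕ} {A : Finset ε} {J : Finset ι}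
    (hL : Lam S A) (hK : KFree (fun e i => ¬ (x i ∈ S e ↔ y i ∈ S e)) s A J) :
    cnt (fun e i => ¬ (x i ∈ S e ↔ y i ∈ S e)) A J ≤ 2 * s * (A.card + J.card) := by
  have h1 := cnt_oriented (S := S) (x := x) (y := y) hL (hK.mono (fun e _ i _ h => by tauto)
    subset_rfl subset_rfl)
  have h2 := cnt_oriented (S := S) (x := y) (y := x) hL (hK.mono (fun e _ i _ h => by tauto)
    subset_rfl subset_rfl)
  calc _ ≤ cnt (fun e i => (x i ∈ S e ∧ y i ∉ S e) ∨ (y i ∈ S e ∧ x i ∉ S e)) A J :=
        cnt_mono fun e _ i _ h => by tauto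
    _ ≤ _ := cnt_or_le _ _ _ _
    _ ≤ s * (A.card + J.card) + s * (A.card + J.card) := Nat.add_le_add h1 h2
    _ = _ := by ring

/-- non-incidences -/
theorem cnt_not_inc {S : ε → Set W} {x y : ι → W} {s : ℕ} {A : Finset ε} {J : Finset ι}
    (hs : 0 < s) (hne : ∀ e ∈ A, (S e).Nonempty)
    (hL : Lam S A) (hK : KFree (fun e i => (x i ∈ S e ↔ y i ∈ S e)) s A J) :
    cnt (fun e i => (x i ∈ S e ↔ y i ∈ S e)) A J ≤ s * (4 * A.card + 6 * J.card) := by
  have h1 := cnt_in (S := S) (x := x) (y := y) hL (hK.mono (fun e _ i _ h => by tauto)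
    subset_rfl subset_rfl)
  have h2 := cnt_out (S := S) (x := x) (y := y) hs hne hL hK
  calc _ ≤ cnt (fun e i => (x i ∈ S e ∧ y i ∈ S e) ∨ (x i ∉ S e ∧ y i ∉ S e)) A J :=
        cnt_mono fun e _ i _ h => by tauto
    _ ≤ _ := cnt_or_le _ _ _ _
    _ ≤ s * (A.card + J.card) + s * (3 * A.card + 5 * J.card) := Nat.add_le_add h1 h2
    _ = _ := by ring

/-- flipped incidences -/
theorem cnt_flip {S : ε → Set W} {x y : ι → W} {s : ℕ} {A : Finset ε} {J : Finset ι}
    {α β : Type*} [Fintype α] [Fintype β] (c : ε → α) (d : ι → β) (fl : α → β → Prop)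
    (hs : 0 < s) (hne : ∀ e ∈ A, (S e).Nonempty) (hL : Lam S A)
    (hK : KFree (fun e i => ((x i ∈ S e ↔ y i ∈ S e) ↔ fl (c e) (d i))) s A J) :
    cnt (fun e i => ((x i ∈ S e ↔ y i ∈ S e) ↔ fl (c e) (d i))) A J ≤
      s * (4 * Fintype.card β * A.card + 6 * Fintype.card α * J.card) := by
  set r : ε → ι → Prop := fun e i => ((x i ∈ S e ↔ y i ∈ S e) ↔ fl (c e) (d i)) with hr
  have hsum : cnt r A J = ∑ a : α, ∑ b : β, cnt r (A.filter fun e => c e = a)
      (J.filter fun i => d i = b) := by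
    have h0 : cnt r A J = ∑ q : α × β, (((A ×ˢ J).filter fun p : ε × ι => r p.1 p.2).filter
        fun p : ε × ι => (c p.1, d p.2) = q).card := by
      unfold cnt
      have := card_eq_sum_card_fiberwise (s := (A ×ˢ J).filter fun p : ε × ι => r p.1 p.2)
        (t := (univ : Finset (α × β))) (f := fun p : ε × ι => (c p.1, d p.2))
        (fun p _ => mem_univ (c p.1, d p.2))
      convert this
    rw [h0, Fintype.sum_prod_type]
    refine sum_congr rfl fun a _ => sum_congr rfl fun b _ => ?_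
    unfold cnt
    refine congrArg card ?_
    ext p
    simp only [mem_filter, mem_product, Prod.mk.injEq]
    tauto
  have hblock : ∀ a b, cnt r (A.filter fun e => c e = a) (J.filter fun i => d i = b) ≤
      s * (4 * (A.filter fun e => c e = a).card + 6 * (J.filter fun i => d i = b).card) := by
    intro a b
    have hL' : Lam S (A.filter fun e => c e = a) := fun e he f hf =>
      hL e (mem_filter.1 he).1 f (mem_filter.1 hf).1
    have hne' : ∀ e ∈ A.filter (fun e => c e = a), (S e).Nonempty := fun e he =>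
      hne e (mem_filter.1 he).1
    by_cases hfl : fl a b
    · have hK' := cnt_not_inc (x := x) (y := y) (J := J.filter fun i => d i = b) hs hne' hL'
        (hK.mono (fun e he i hi h => by
          have h1 := (mem_filter.1 he).2
          have h2 := (mem_filter.1 hi).2
          change (_ ↔ fl (c e) (d i))
          rw [h1, h2]
          exact ⟨fun _ => hfl, fun _ => h⟩) (filter_subset _ _) (filter_subset _ _))
      refine (cnt_mono fun e he i hi h => ?_).trans hK'
      simp only [hr] at h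
      rw [(mem_filter.1 he).2, (mem_filter.1 hi).2] at h
      exact h.2 hfl
    · have hK' := cnt_inc (x := x) (y := y) (J := J.filter fun i => d i = b) hL'
        (hK.mono (fun e he i hi h => by
          have h1 := (mem_filter.1 he).2
          have h2 := (mem_filter.1 hi).2
          change (_ ↔ fl (c e) (d i))
          rw [h1, h2]
          exact ⟨fun h' => absurd h' h, fun h' => absurd h' hfl⟩) (filter_subset _ _)
          (filter_subset _ _))
      refine ((cnt_mono fun e he i hi h => ?_).trans hK').trans ?_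
      · simp only [hr] at h
        rw [(mem_filter.1 he).2, (mem_filter.1 hi).2] at h
        exact fun h' => hfl (h.1 h')
      · nlinarith
  have hA : ∑ a : α, (A.filter fun e => c e = a).card = A.card :=
    (card_eq_sum_card_fiberwise (fun e _ => mem_univ (c e))).symm
  have hJ : ∑ b : β, (J.filter fun i => d i = b).card = J.card :=
    (card_eq_sum_card_fiberwise (fun e _ => mem_univ (d e))).symm
  rw [hsum]
  calc _ ≤ ∑ a : α, ∑ b : β, s * (4 * (A.filter fun e => c e = a).card +
        6 * (J.filter fun i => d i = b).card) :=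
        sum_le_sum fun a _ => sum_le_sum fun b _ => hblock a b
    _ = _ := by
        simp_rw [← mul_sum, sum_add_distrib, ← mul_sum, hJ, sum_const, card_univ, smul_eq_mul,
          ← mul_sum, hA]
        ring

end Pool.Agent.Helper32.Piv
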