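import Pool.Agent.Helper32.Piv.Tree

/-!
# The linear bound is preserved by decompositions with few neighbourhoods
-/

set_option autoImplicit false

open Finset
open scoped Classical

namespace Pool.Agent.Helper32.Piv

variable {E : Type*}

section count

variable (G : SimpleGraph E) (s : ℕ) (Z : Finset E)

/-- number of ordered adjacent pairs in `X` minus the remaining budget of the heavy vertices -/
noncomputable def FF (X : Finset E) : ℤ :=
  (cnt G.Adj (X ∩ Z) (X ∩ Z) : ℤ) - 2 * ∑ u ∈ Hv G s Z X, ((s : ℤ) - (nout G Z X u).card)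

/-- light vertices at a node -/
noncomputable def ZX (X : Finset E) (P : Finset (Finset E)) : Finset E :=
  (X ∩ Z) \ P.biUnion (Hv G s Z)

/-- number of ordered cross pairs of light vertices -/
noncomputable def LL (X : Finset E) (P : Finset (Finset E)) : ℕ :=
  cnt (fun u w => G.Adj u w ∧ ∀ Y ∈ P, ¬ (u ∈ Y ∧ w ∈ Y)) (ZX G s Z X P) (ZX G s Z X P)

variable {G s Z}

theorem Hv_sub (Y : Finset E) : Hv G s Z Y ⊆ Y ∩ Z := filter_subset _ _

theorem cnt_rec (X : Finset E) (P : Finset (Finset E)) :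
    cnt G.Adj (X ∩ Z) (X ∩ Z) ≤ ∑ Y ∈ P, cnt G.Adj (Y ∩ Z) (Y ∩ Z) +
      2 * ∑ Y ∈ P, ∑ u ∈ Hv G s Z Y, (nout G Z Y u \ nout G Z X u).card + LL G s Z X P := by
  set S1 : Finset (E × E) := P.biUnion fun Y => ((Y ∩ Z) ×ˢ (Y ∩ Z)).filter
    fun p => G.Adj p.1 p.2 with hS1
  set S2 : Finset (E × E) := P.biUnion fun Y => (Hv G s Z Y).biUnion fun u =>
    (nout G Z Y u \ nout G Z X u).image fun w => (u, w) with hS2
  set S3 : Finset (E × E) := S2.image Prod.swap with hS3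
  set S4 : Finset (E × E) := ((ZX G s Z X P) ×ˢ (ZX G s Z X P)).filter
    fun p => G.Adj p.1 p.2 ∧ ∀ Y ∈ P, ¬ (p.1 ∈ Y ∧ p.2 ∈ Y) with hS4
  have hmem2 : ∀ u w, u ∈ X ∩ Z → w ∈ X ∩ Z → G.Adj u w → (∀ Y ∈ P, ¬ (u ∈ Y ∧ w ∈ Y)) →
      (∃ Y ∈ P, u ∈ Hv G s Z Y) → (u, w) ∈ S2 := by
    rintro u w hu hw huw hcr ⟨Y, hY, huY⟩
    simp only [hS2, mem_biUnion, mem_image]
    refine ⟨Y, hY, u, huY, w, ?_, rfl⟩
    rw [mem_inter] at hw
    simp only [mem_sdiff, nout, mem_filter, not_and]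
    have huY' : u ∈ Y := (mem_inter.1 (Hv_sub Y huY)).1
    exact ⟨⟨hw.2, fun h => hcr Y hY ⟨huY', h⟩, huw⟩, fun _ h => absurd hw.1 h⟩
  have hcover : (((X ∩ Z) ×ˢ (X ∩ Z)).filter fun p => G.Adj p.1 p.2) ⊆ ((S1 ∪ S2) ∪ S3) ∪ S4 := by
    rintro ⟨u, w⟩ hp
    rw [mem_filter, mem_product] at hp
    obtain ⟨⟨hu, hw⟩, huw⟩ := hp
    simp only at hu hw huw
    simp only [mem_union]
    by_cases hcr : ∀ Y ∈ P, ¬ (u ∈ Y ∧ w ∈ Y)
    · by_cases h1 : ∃ Y ∈ P, u ∈ Hv G s Z Y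
      · exact Or.inl (Or.inl (Or.inr (hmem2 u w hu hw huw hcr h1)))
      · by_cases h2 : ∃ Y ∈ P, w ∈ Hv G s Z Y
        · left; right
          rw [hS3, mem_image]
          exact ⟨(w, u), hmem2 w u hw hu huw.symm (fun Y hY h => hcr Y hY ⟨h.2, h.1⟩) h2, rfl⟩
        · right
          simp only [hS4, mem_filter, mem_product, ZX, mem_sdiff, mem_biUnion]
          exact ⟨⟨⟨hu, h1⟩, ⟨hw, h2⟩⟩, huw, hcr⟩
    · push Not at hcr
      obtain ⟨Y, hY, huY, hwY⟩ := hcr
      left; left; left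
      simp only [hS1, mem_biUnion, mem_filter, mem_product, mem_inter]
      exact ⟨Y, hY, ⟨⟨huY, (mem_inter.1 hu).2⟩, ⟨hwY, (mem_inter.1 hw).2⟩⟩, huw⟩
  have hc1 : S1.card ≤ ∑ Y ∈ P, cnt G.Adj (Y ∩ Z) (Y ∩ Z) := card_biUnion_le
  have hc2 : S2.card ≤ ∑ Y ∈ P, ∑ u ∈ Hv G s Z Y, (nout G Z Y u \ nout G Z X u).card :=
    card_biUnion_le.trans (sum_le_sum fun Y _ => card_biUnion_le.trans
      (sum_le_sum fun u _ => card_image_le))
  have hc3 : S3.card ≤ S2.card := card_image_le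
  have hc4 : S4.card ≤ LL G s Z X P := le_of_eq (by
    unfold LL cnt
    refine congrArg card ?_
    ext p
    simp only [hS4, mem_filter])
  have hc := card_le_card hcover
  have h1 := card_union_le ((S1 ∪ S2) ∪ S3) S4
  have h2 := card_union_le (S1 ∪ S2) S3
  have h3 := card_union_le S1 S2
  have h4 : cnt G.Adj (X ∩ Z) (X ∩ Z) =
    (((X ∩ Z) ×ˢ (X ∩ Z)).filter fun p => G.Adj p.1 p.2).card := rfl
  omega

theorem FF_rec (hfree : NoBiclique G s Z) (X : Finset E) (P : Finset (Finset E))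
    (hsub : ∀ Y ∈ P, Y ⊆ X) (hdisj : ∀ Y ∈ P, ∀ Y' ∈ P, Y ≠ Y' → Disjoint Y Y') :
    FF G s Z X ≤ ∑ Y ∈ P, FF G s Z Y + LL G s Z X P := by
  have h1 := cnt_rec (G := G) (s := s) (Z := Z) X P
  have h2 : ∀ Y ∈ P, ∀ u, ((nout G Z Y u \ nout G Z X u).card : ℤ) =
      (nout G Z Y u).card - (nout G Z X u).card := by
    intro Y hY u
    have : nout G Z X u ⊆ nout G Z Y u := by
      rw [nout_sub (hsub Y hY)]
      exact filter_subset _ _
    rw [card_sdiff_of_subset this, Nat.cast_sub (card_le_card this)]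
  have h3 : (cnt G.Adj (X ∩ Z) (X ∩ Z) : ℤ) ≤ ∑ Y ∈ P, (cnt G.Adj (Y ∩ Z) (Y ∩ Z) : ℤ) +
      2 * ∑ Y ∈ P, ∑ u ∈ Hv G s Z Y, ((nout G Z Y u).card - (nout G Z X u).card : ℤ) +
        LL G s Z X P := by
    have h4 : (∑ Y ∈ P, ∑ u ∈ Hv G s Z Y, ((nout G Z Y u \ nout G Z X u).card : ℤ)) =
        ∑ Y ∈ P, ∑ u ∈ Hv G s Z Y, ((nout G Z Y u).card - (nout G Z X u).card : ℤ) :=
      sum_congr rfl fun Y hY => sum_congr rfl fun u _ => h2 Y hY u
    rw [← h4]
    exact_mod_cast h1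
  have h5 : ∑ u ∈ P.biUnion (Hv G s Z), ((s : ℤ) - (nout G Z X u).card) =
      ∑ Y ∈ P, ∑ u ∈ Hv G s Z Y, ((s : ℤ) - (nout G Z X u).card) := by
    apply sum_biUnion
    intro Y hY Y' hY' hne
    exact (hdisj Y hY Y' hY' hne).mono ((Hv_sub Y).trans inter_subset_left)
      ((Hv_sub Y').trans inter_subset_left)
  have h6 : ∑ u ∈ P.biUnion (Hv G s Z), ((s : ℤ) - (nout G Z X u).card) ≤
      ∑ u ∈ Hv G s Z X, ((s : ℤ) - (nout G Z X u).card) := by
    apply sum_le_sum_of_subset_of_nonneg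
    · intro u hu
      obtain ⟨Y, hY, huY⟩ := mem_biUnion.1 hu
      exact Hv_mono (hsub Y hY) huY
    · intro u hu _
      have := card_nout_lt hfree hu
      omega
  unfold FF
  have h7 : ∑ Y ∈ P, ((cnt G.Adj (Y ∩ Z) (Y ∩ Z) : ℤ) -
      2 * ∑ u ∈ Hv G s Z Y, ((s : ℤ) - (nout G Z Y u).card)) =
      ∑ Y ∈ P, (cnt G.Adj (Y ∩ Z) (Y ∩ Z) : ℤ) -
        2 * ∑ Y ∈ P, ∑ u ∈ Hv G s Z Y, ((s : ℤ) - (nout G Z Y u).card) := by
    rw [sum_sub_distrib, mul_sum]
  rw [h7]
  have h8 : ∑ Y ∈ P, ∑ u ∈ Hv G s Z Y, ((s : ℤ) - (nout G Z X u).card) =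
      ∑ Y ∈ P, ∑ u ∈ Hv G s Z Y, ((s : ℤ) - (nout G Z Y u).card) +
      ∑ Y ∈ P, ∑ u ∈ Hv G s Z Y, ((nout G Z Y u).card - (nout G Z X u).card : ℤ) := by
    rw [← sum_add_distrib]
    refine sum_congr rfl fun Y _ => ?_
    rw [← sum_add_distrib]
    exact sum_congr rfl fun u _ => by ring
  linarith

theorem FF_le_small (hfree : NoBiclique G s Z) (X : Finset E) (h : (X ∩ Z).card < s) :
    FF G s Z X ≤ s * (X ∩ Z).card := by
  have h1 := cnt_le_mul G.Adj (X ∩ Z) (X ∩ Z)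
  have h2 : 0 ≤ ∑ u ∈ Hv G s Z X, ((s : ℤ) - (nout G Z X u).card) := by
    apply sum_nonneg
    intro u hu
    have := card_nout_lt hfree hu
    omega
  have h3 : (X ∩ Z).card * (X ∩ Z).card ≤ s * (X ∩ Z).card := Nat.mul_le_mul_right _ h.le
  unfold FF
  have h4 : (cnt G.Adj (X ∩ Z) (X ∩ Z) : ℤ) ≤ s * (X ∩ Z).card := by
    exact_mod_cast h1.trans h3
  linarith

theorem LL_le_mul (c q : ℕ) (hs : 0 < s) (hfree : NoBiclique G s Z) (X : Finset E)
    (P : Finset (Finset E)) (hdisj : ∀ Y ∈ P, ∀ Y' ∈ P, Y ≠ Y' → Disjoint Y Y')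
    (hq : ∀ Y ∈ P, (Y.image fun u => {w : E | w ∉ Y ∧ G.Adj u w}).card ≤ q)
    (G' : SimpleGraph E) (hG' : LinearBound c G')
    (hagree : ∀ u ∈ X, ∀ w ∈ X, (∀ Y ∈ P, ¬ (u ∈ Y ∧ w ∈ Y)) → (G.Adj u w ↔ G'.Adj u w)) :
    LL G s Z X P ≤ c * ((q + 3) * s) * (ZX G s Z X P).card := by
  have h1 := hG' ((q + 3) * s) (ZX G s Z X P)
    (node_noBiclique hs hfree q X P hdisj hq G' hagree)
  refine le_trans ?_ h1
  change cnt _ _ _ ≤ cnt G'.Adj _ _
  apply cnt_mono
  intro u hu w hw huw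
  have hu' : u ∈ X := (mem_inter.1 (mem_sdiff.1 hu).1).1
  have hw' : w ∈ X := (mem_inter.1 (mem_sdiff.1 hw).1).1
  exact (hagree u hu' w hw' huw.2).1 huw.1

theorem FF_le (c q : ℕ) (hs : 0 < s) (hfree : NoBiclique G s Z) {X : Finset E}
    (h : Built (LinearBound c) q G X) : s ≤ (X ∩ Z).card →
    FF G s Z X ≤ (3 + 2 * q + c * (q + 3) * (1 + 2 * q)) * s * (X ∩ Z).card -
      2 * (c * (q + 3)) * q * s ^ 2 := by
  induction h with
  | node X P hsub hdisj hP hq G' hG' hagree ih =>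
    intro hX
    set C1 : ℕ := c * (q + 3) with hC1
    set Pb := P.filter fun Y => s ≤ (Y ∩ Z).card with hPb
    set Ps := P.filter fun Y => ¬ s ≤ (Y ∩ Z).card with hPs
    set Z0 := (X ∩ Z) \ Pb.biUnion (fun Y => Y ∩ Z) with hZ0
    set δ := Z0.card with hδ
    set d := Pb.card with hd
    set zx := (ZX G s Z X P).card with hzx
    set n := (X ∩ Z).card with hn
    have hrec := FF_rec hfree X P hsub hdisj
    -- sizes
    have hsum_b : ∑ Y ∈ Pb, (Y ∩ Z).card + δ = n := by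
      have h1 : (Pb.biUnion fun Y => Y ∩ Z).card = ∑ Y ∈ Pb, (Y ∩ Z).card := by
        apply card_biUnion
        intro Y hY Y' hY' hne
        exact (hdisj Y (mem_filter.1 hY).1 Y' (mem_filter.1 hY').1 hne).mono inter_subset_left
          inter_subset_left
      have h2 : (Pb.biUnion fun Y => Y ∩ Z) ⊆ X ∩ Z := by
        intro u hu
        obtain ⟨Y, hY, huY⟩ := mem_biUnion.1 hu
        rw [mem_inter] at huY ⊢
        exact ⟨hsub Y (mem_filter.1 hY).1 huY.1, huY.2⟩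
      rw [← h1, hδ, hn, hZ0, card_sdiff_of_subset h2]
      have := card_le_card h2
      omega
    have hsum_s : ∑ Y ∈ Ps, (Y ∩ Z).card ≤ δ := by
      have h1 : (Ps.biUnion fun Y => Y ∩ Z).card = ∑ Y ∈ Ps, (Y ∩ Z).card := by
        apply card_biUnion
        intro Y hY Y' hY' hne
        exact (hdisj Y (mem_filter.1 hY).1 Y' (mem_filter.1 hY').1 hne).mono inter_subset_left
          inter_subset_left
      rw [← h1]
      apply card_le_card
      intro u hu
      obtain ⟨Y, hY, huY⟩ := mem_biUnion.1 hu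
      rw [mem_inter] at huY
      have hY' := mem_filter.1 hY
      rw [hZ0, mem_sdiff, mem_inter]
      refine ⟨⟨hsub Y hY'.1 huY.1, huY.2⟩, fun hu' => ?_⟩
      obtain ⟨Y', hY'', huY'⟩ := mem_biUnion.1 hu'
      rw [mem_inter] at huY'
      have h3 := mem_filter.1 hY''
      by_cases h4 : Y = Y'
      · exact hY'.2 (h4 ▸ h3.2)
      · exact Finset.disjoint_left.1 (hdisj Y hY'.1 Y' h3.1 h4) huY.1 huY'.1
    have hzx_le : zx ≤ δ + d * (q * s) := by
      have h1 : ZX G s Z X P ⊆ Z0 ∪ Pb.biUnion fun Y => (Y ∩ Z) \ Hv G s Z Y := by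
        intro u hu
        simp only [ZX, mem_sdiff, mem_biUnion, not_exists, not_and] at hu
        rw [mem_union]
        by_cases h2 : u ∈ Pb.biUnion fun Y => Y ∩ Z
        · right
          obtain ⟨Y, hY, huY⟩ := mem_biUnion.1 h2
          exact mem_biUnion.2 ⟨Y, hY, mem_sdiff.2 ⟨huY, hu.2 Y (mem_filter.1 hY).1⟩⟩
        · left
          exact mem_sdiff.2 ⟨hu.1, h2⟩
      calc zx ≤ (Z0 ∪ Pb.biUnion fun Y => (Y ∩ Z) \ Hv G s Z Y).card := card_le_card h1
        _ ≤ Z0.card + (Pb.biUnion fun Y => (Y ∩ Z) \ Hv G s Z Y).card := card_union_le _ _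
        _ ≤ Z0.card + ∑ Y ∈ Pb, ((Y ∩ Z) \ Hv G s Z Y).card :=
            Nat.add_le_add_left card_biUnion_le _
        _ ≤ δ + d * (q * s) := by
            apply Nat.add_le_add_left
            rw [← smul_eq_mul]
            exact sum_le_card_nsmul _ _ _ fun Y hY =>
              light_card Y q (hq Y (mem_filter.1 hY).1)
    have hll1 : LL G s Z X P ≤ C1 * s * zx := by
      have := LL_le_mul c q hs hfree X P hdisj hq G' hG' hagree
      calc _ ≤ _ := this
        _ = _ := by rw [hC1]; ring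
    have hll2 : d = 1 → LL G s Z X P ≤ 2 * δ * zx := by
      intro hd1
      obtain ⟨Y1, hY1⟩ := card_eq_one.1 (hd ▸ hd1 : Pb.card = 1)
      have hY1P : Y1 ∈ P := by
        have : Y1 ∈ Pb := by rw [hY1]; exact mem_singleton_self _
        exact (mem_filter.1 this).1
      have hZ0' : ∀ u, u ∈ ZX G s Z X P → u ∉ Y1 → u ∈ Z0 := by
        intro u hu hu1
        rw [hZ0, hY1, singleton_biUnion, mem_sdiff]
        exact ⟨(mem_sdiff.1 hu).1, fun h => hu1 (mem_inter.1 h).1⟩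
      have h1 : (((ZX G s Z X P) ×ˢ (ZX G s Z X P)).filter
          fun p => G.Adj p.1 p.2 ∧ ∀ Y ∈ P, ¬ (p.1 ∈ Y ∧ p.2 ∈ Y)) ⊆
          (Z0 ×ˢ (ZX G s Z X P)) ∪ ((ZX G s Z X P) ×ˢ Z0) := by
        rintro ⟨u, w⟩ hp
        rw [mem_filter, mem_product] at hp
        obtain ⟨⟨hu, hw⟩, -, hcr⟩ := hp
        rw [mem_union, mem_product, mem_product]
        by_cases h2 : u ∈ Y1
        · exact Or.inr ⟨hu, hZ0' w hw fun h => hcr Y1 hY1P ⟨h2, h⟩⟩
        · exact Or.inl ⟨hZ0' u hu h2, hw⟩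
      have h2 := (card_le_card h1).trans (card_union_le _ _)
      rw [card_product, card_product] at h2
      have h3 : LL G s Z X P = (((ZX G s Z X P) ×ˢ (ZX G s Z X P)).filter
          fun p => G.Adj p.1 p.2 ∧ ∀ Y ∈ P, ¬ (p.1 ∈ Y ∧ p.2 ∈ Y)).card := by
        unfold LL cnt
        refine congrArg card ?_
        ext p
        simp only [mem_filter]
      rw [h3]
      calc _ ≤ _ := h2
        _ = 2 * δ * zx := by rw [hδ, hzx]; ring
    obtain ⟨m, hm⟩ : ∃ m : ℕ, m = ∑ Y ∈ Pb, (Y ∩ Z).card := ⟨_, rfl⟩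
    -- sum over the parts
    have hsumF : ∑ Y ∈ P, FF G s Z Y ≤
        (3 + 2 * q + C1 * (1 + 2 * q)) * s * (m : ℤ) - d * (2 * C1 * q * s ^ 2) + s * δ := by
      have h1 : ∑ Y ∈ P, FF G s Z Y = ∑ Y ∈ Pb, FF G s Z Y + ∑ Y ∈ Ps, FF G s Z Y :=
        (sum_filter_add_sum_filter_not P _ _).symm
      have h2 : ∑ Y ∈ Pb, FF G s Z Y ≤ ∑ Y ∈ Pb,
          (((3 + 2 * q + C1 * (1 + 2 * q)) * s * (Y ∩ Z).card : ℤ) - 2 * C1 * q * s ^ 2) := by
        apply sum_le_sum
        intro Y hY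
        have hY' := mem_filter.1 hY
        have := ih Y hY'.1 hY'.2
        rw [hC1]
        push_cast
        push_cast at this
        exact this
      have h3 : ∑ Y ∈ Ps, FF G s Z Y ≤ ∑ Y ∈ Ps, ((s : ℤ) * (Y ∩ Z).card) := by
        apply sum_le_sum
        intro Y hY
        have hY' := mem_filter.1 hY
        exact FF_le_small hfree Y (not_le.1 hY'.2)
      have h4 : ∑ Y ∈ Ps, ((s : ℤ) * (Y ∩ Z).card) ≤ s * δ := by
        rw [← mul_sum]
        have : (∑ Y ∈ Ps, ((Y ∩ Z).card : ℤ)) ≤ δ := by exact_mod_cast hsum_s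
        exact mul_le_mul_of_nonneg_left this (by positivity)
      have h5 : ∑ Y ∈ Pb, (((3 + 2 * q + C1 * (1 + 2 * q)) * s * (Y ∩ Z).card : ℤ) -
          2 * C1 * q * s ^ 2) = (3 + 2 * q + C1 * (1 + 2 * q)) * s * (m : ℤ) -
            d * (2 * C1 * q * s ^ 2) := by
        rw [sum_sub_distrib, ← mul_sum, sum_const, nsmul_eq_mul, hm, Nat.cast_sum]
      rw [h1]
      linarith
    -- arithmetic
    have key : LL G s Z X P + s * δ + 2 * C1 * q * s ^ 2 ≤
        (3 + 2 * q + C1 * (1 + 2 * q)) * s * δ + d * (2 * C1 * q * s ^ 2) := by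
      rcases Nat.lt_or_ge d 2 with hd2 | hd2
      · interval_cases hdd : d
        · -- no big part
          have hPb0 : Pb = ∅ := card_eq_zero.1 (by omega)
          have hδn : δ = n := by
            rw [hPb0] at hsum_b
            simpa using hsum_b
          have hsδ : s ≤ δ := hδn ▸ hX
          have hz : zx ≤ δ := by simpa using hzx_le
          have e1 : LL G s Z X P ≤ C1 * s * δ := hll1.trans (Nat.mul_le_mul_left _ hz)
          have e2 : 2 * C1 * q * s ^ 2 ≤ 2 * C1 * q * (s * δ) := by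
            rw [pow_two]
            exact Nat.mul_le_mul_left _ (Nat.mul_le_mul_left _ hsδ)
          calc _ ≤ C1 * s * δ + s * δ + 2 * C1 * q * (s * δ) := by omega
            _ ≤ C1 * s * δ + s * δ + 2 * C1 * q * (s * δ) + (2 + 2 * q) * (s * δ) :=
              Nat.le_add_right _ _
            _ = _ := by ring
        · have hz : zx ≤ δ + q * s := by simpa using hzx_le
          rcases le_or_gt s δ with hsδ | hsδ
          · have e1 : LL G s Z X P ≤ C1 * s * (δ + q * δ) := hll1.trans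
              (Nat.mul_le_mul_left _ (hz.trans (Nat.add_le_add_left
                (Nat.mul_le_mul_left _ hsδ) _)))
            calc _ ≤ C1 * s * (δ + q * δ) + s * δ + 2 * C1 * q * s ^ 2 := by omega
              _ ≤ C1 * s * (δ + q * δ) + s * δ + 2 * C1 * q * s ^ 2 +
                  ((2 + 2 * q) * (s * δ) + C1 * q * (s * δ)) := Nat.le_add_right _ _
              _ = _ := by ring
          · have e1 : LL G s Z X P ≤ 2 * δ * (s + q * s) := (hll2 rfl).trans
              (Nat.mul_le_mul_left _ (hz.trans (Nat.add_le_add_right hsδ.le _)))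
            calc _ ≤ 2 * δ * (s + q * s) + s * δ + 2 * C1 * q * s ^ 2 := by omega
              _ ≤ 2 * δ * (s + q * s) + s * δ + 2 * C1 * q * s ^ 2 +
                  C1 * (1 + 2 * q) * (s * δ) := Nat.le_add_right _ _
              _ = _ := by ring
      · have e1 : LL G s Z X P ≤ C1 * s * (δ + d * (q * s)) :=
          hll1.trans (Nat.mul_le_mul_left _ hzx_le)
        obtain ⟨r, hr⟩ := Nat.exists_eq_add_of_le hd2
        calc _ ≤ C1 * s * (δ + d * (q * s)) + s * δ + 2 * C1 * q * s ^ 2 := by omega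
          _ ≤ C1 * s * (δ + d * (q * s)) + s * δ + 2 * C1 * q * s ^ 2 +
                ((2 + 2 * q) * (s * δ) + C1 * (2 * q) * (s * δ) + C1 * q * s ^ 2 * r) :=
              Nat.le_add_right _ _
          _ = _ := by rw [hr]; ring
    have key' : (LL G s Z X P : ℤ) + s * δ + 2 * C1 * q * s ^ 2 ≤
        (3 + 2 * q + C1 * (1 + 2 * q)) * s * δ + d * (2 * C1 * q * s ^ 2) := by
      exact_mod_cast key
    have hn' : (n : ℤ) = (m : ℤ) + δ := by
      rw [hm]
      exact_mod_cast hsum_b.symm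
    have hfin : FF G s Z X ≤ (3 + 2 * q + C1 * (1 + 2 * q)) * s * n - 2 * C1 * q * s ^ 2 := by
      rw [hn']
      have hexp : ((3 + 2 * q + C1 * (1 + 2 * q)) * s * ((m : ℤ) + (δ : ℤ)) : ℤ) =
          (3 + 2 * q + C1 * (1 + 2 * q)) * s * m +
          (3 + 2 * q + C1 * (1 + 2 * q)) * s * δ := by ring
      rw [hexp]
      linarith
    rw [hC1] at hfin
    push_cast at hfin
    exact hfin

end count

/-- **The linear bound is preserved under decompositions with few neighbourhoods.** -/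
theorem linearBound_of_built [Fintype E] {c q : ℕ} {G : SimpleGraph E}
    (h : Built (LinearBound c) q G univ) :
    LinearBound (5 + 2 * q + c * (q + 3) * (1 + 2 * q)) G := by
  intro s Z hfree
  have hs : 0 < s := by
    rcases Nat.eq_zero_or_pos s with h0 | h0
    · exfalso
      subst h0
      obtain ⟨a, ha, -⟩ := hfree ∅ (empty_subset _) ∅ (empty_subset _) rfl rfl
      exact absurd ha (by simp)
    · exact h0
  change cnt G.Adj Z Z ≤ _
  have hZ : univ ∩ Z = Z := univ_inter Z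
  have h1 : (cnt G.Adj Z Z : ℤ) = FF G s Z univ +
      2 * ∑ u ∈ Hv G s Z univ, ((s : ℤ) - (nout G Z univ u).card) := by
    unfold FF
    rw [hZ]
    ring
  have h2 : ∑ u ∈ Hv G s Z univ, ((s : ℤ) - (nout G Z univ u).card) ≤ s * Z.card := by
    calc _ ≤ ∑ _u ∈ Hv G s Z univ, (s : ℤ) := sum_le_sum fun u _ => by
          have : (0 : ℤ) ≤ (nout G Z univ u).card := by positivity
          linarith
      _ = (Hv G s Z univ).card * (s : ℤ) := by rw [sum_const, nsmul_eq_mul]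
      _ ≤ s * Z.card := by
          rw [mul_comm]
          apply mul_le_mul_of_nonneg_left _ (by positivity)
          have := card_le_card (Hv_sub (G := G) (s := s) (Z := Z) univ)
          rw [hZ] at this
          exact_mod_cast this
  have h3 : FF G s Z univ ≤ (3 + 2 * q + c * (q + 3) * (1 + 2 * q)) * s * Z.card := by
    rcases le_or_gt s Z.card with h4 | h4
    · have := FF_le c q hs hfree h (by rw [hZ]; exact h4)
      rw [hZ] at this
      have h5 : (0 : ℤ) ≤ 2 * (c * (q + 3)) * q * s ^ 2 := by positivity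
      linarith
    · have := FF_le_small hfree (univ : Finset E) (by rw [hZ]; exact h4)
      rw [hZ] at this
      have h6 : (0 : ℤ) ≤ (2 + 2 * q + c * (q + 3) * (1 + 2 * q)) * (s * Z.card) := by positivity
      linarith
  have h4 : (cnt G.Adj Z Z : ℤ) ≤ (5 + 2 * q + c * (q + 3) * (1 + 2 * q)) * s * Z.card := by
    rw [h1]
    linarith
  exact_mod_cast h4

end Pool.Agent.Helper32.Piv
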