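import Pool.Agent.Helper32.Piv.Cut
import Pool.Agent.Helper32.Piv.Tree2

/-!
# Fundamental graphs of perturbations of graphic and cographic matroids
-/

set_option autoImplicit false

open Finset
open scoped Classical

namespace Pool.Agent.Helper32.Piv

theorem IsFund.isBase {E : Type*} {C : Submodule (ZMod 2) (E → ZMod 2)} {B : Finset E}
    {G : SimpleGraph E} (h : IsFund C B G) : IsBase C B := by
  refine ⟨h.inj, fun b hb => ⟨_, h.mem b hb, fun t ht => ?_⟩⟩
  have : ¬ G.Adj b t := fun h' => ((h.bip b t h').1 hb) ht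
  simp [this]

section perp
variable {E : Type*} [Fintype E]

/-- the standard bilinear form -/
def bil : LinearMap.BilinForm (ZMod 2) (E → ZMod 2) :=
  dotProductBilin (ZMod 2) (ZMod 2)

theorem bil_nondeg : (bil (E := E)).Nondegenerate := by
  constructor
  · intro u hu
    ext e
    have := hu (Pi.single e 1)
    simpa [bil] using this
  · intro u hu
    ext e
    have := hu (Pi.single e 1)
    simpa [bil] using this

theorem bil_refl : (bil (E := E)).IsRefl := by
  intro u v h
  simp only [bil, dotProductBilin, LinearMap.coe_mk, AddHom.coe_mk] at h ⊢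
  rw [dotProduct_comm]
  exact h

theorem perp_eq (C : Submodule (ZMod 2) (E → ZMod 2)) : perp C = bil.orthogonal C := by
  ext g
  rw [LinearMap.BilinForm.mem_orthogonal_iff]
  exact Iff.rfl

theorem perp_perp (C : Submodule (ZMod 2) (E → ZMod 2)) : perp (perp C) = C := by
  rw [perp_eq, perp_eq, LinearMap.BilinForm.orthogonal_orthogonal bil_nondeg bil_refl]

theorem finrank_perp (C : Submodule (ZMod 2) (E → ZMod 2)) :
    Module.finrank (ZMod 2) (perp C) = Fintype.card E - Module.finrank (ZMod 2) C := by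
  rw [perp_eq, LinearMap.BilinForm.finrank_orthogonal bil_nondeg,
    Module.finrank_fintype_fun_eq_card]

theorem perp_sup (C D : Submodule (ZMod 2) (E → ZMod 2)) : perp (C ⊔ D) = perp C ⊓ perp D := by
  ext g
  constructor
  · intro h
    exact ⟨fun c hc => h c (Submodule.mem_sup_left hc), fun c hc => h c (Submodule.mem_sup_right hc)⟩
  · rintro ⟨h1, h2⟩ c hc
    obtain ⟨a, ha, b, hb, rfl⟩ := Submodule.mem_sup.1 hc
    simp only [Pi.add_apply, add_mul, sum_add_distrib]
    rw [h1 a ha, h2 b hb, add_zero]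

theorem Near.perp {k : ℕ} {C D : Submodule (ZMod 2) (E → ZMod 2)} (h : Near k C (perp D)) :
    Near k (perp C) D := by
  have h1 : Piv.perp C ⊓ D = Piv.perp (C ⊔ Piv.perp D) := by
    rw [perp_sup, perp_perp]
  have h2 := Submodule.finrank_sup_add_finrank_inf_eq C (Piv.perp D)
  have h3 := finrank_perp C
  have h4 := finrank_perp D
  have h5 := finrank_perp (C ⊔ Piv.perp D)
  have h6 : Module.finrank (ZMod 2) C ≤ Fintype.card E := by
    have := Submodule.finrank_le C
    rwa [Module.finrank_fintype_fun_eq_card] at this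
  have h7 : Module.finrank (ZMod 2) D ≤ Fintype.card E := by
    have := Submodule.finrank_le D
    rwa [Module.finrank_fintype_fun_eq_card] at this
  have h8 : Module.finrank (ZMod 2) (C ⊔ Piv.perp D : Submodule (ZMod 2) (E → ZMod 2)) ≤
      Fintype.card E := by
    have := Submodule.finrank_le (C ⊔ Piv.perp D)
    rwa [Module.finrank_fintype_fun_eq_card] at this
  obtain ⟨g1, g2⟩ := h
  unfold Near
  rw [h1]
  constructor <;> omega

theorem IsFund.perp {C : Submodule (ZMod 2) (E → ZMod 2)} {B : Finset E}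
    {G : SimpleGraph E} (h : IsFund C B G) : IsFund (perp C) Bᶜ G := by
  have hsum : ∀ b ∈ B, ∀ g : E → ZMod 2,
      ∑ e, (if e = b ∨ G.Adj b e then 1 else 0) * g e = g b + ∑ e ∈ univ.filter (G.Adj b), g e := by
    intro b hb g
    have : ∀ e, (if e = b ∨ G.Adj b e then (1 : ZMod 2) else 0) * g e =
        (if e = b then g e else 0) + (if G.Adj b e then g e else 0) := by
      intro e
      by_cases h1 : e = b
      · subst h1
        simp
      · by_cases h2 : G.Adj b e <;> simp [h1, h2]
    rw [sum_congr rfl fun e _ => this e, sum_add_distrib, sum_filter]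
    simp
  refine ⟨?_, ?_, ?_⟩
  · intro u v huv
    have := h.bip u v huv
    simp only [mem_compl]
    tauto
  · intro f hf c hc
    rw [mem_compl] at hf
    have hexp := h.isBase.expand (fun b e => if e = b ∨ G.Adj b e then 1 else 0) h.mem (by
      intro b hb t ht
      have : ¬ G.Adj b t := fun h' => ((h.bip b t h').1 hb) ht
      simp [this]) c hc
    rw [hexp]
    simp only [Finset.sum_apply, Pi.smul_apply, smul_eq_mul, sum_mul]
    rw [sum_comm]
    apply sum_eq_zero
    intro b hb
    have hbf : b ≠ f := fun h' => hf (h' ▸ hb)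
    have h1 : ∑ e, c b * (if e = b ∨ G.Adj b e then 1 else 0) *
        (if e = f ∨ G.Adj f e then 1 else 0) =
        c b * ∑ e, (if e = b ∨ G.Adj b e then 1 else 0) *
          (if e = f ∨ G.Adj f e then (1 : ZMod 2) else 0) := by
      rw [mul_sum]
      exact sum_congr rfl fun e _ => by ring
    rw [h1, hsum b hb]
    have h2 : ∑ e ∈ univ.filter (G.Adj b), (if e = f ∨ G.Adj f e then (1 : ZMod 2) else 0) =
        if G.Adj b f then 1 else 0 := by
      have : ∀ e ∈ univ.filter (G.Adj b), (if e = f ∨ G.Adj f e then (1 : ZMod 2) else 0) =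
          if e = f then 1 else 0 := by
        intro e he
        simp only [mem_filter, mem_univ, true_and] at he
        have h3 : ¬ G.Adj f e := by
          intro h'
          have h4 := h.bip b e he
          have h5 := h.bip f e h'
          tauto
        simp [h3]
      rw [sum_congr rfl this, sum_ite_eq']
      simp
    rw [h2]
    by_cases hbf' : G.Adj b f
    · rw [if_pos (Or.inr hbf'.symm), if_pos hbf', zmod2_add_self, mul_zero]
    · rw [if_neg hbf', if_neg, zero_add, mul_zero]
      rintro (h' | h')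
      · exact hbf h'
      · exact hbf' h'.symm
  · intro g hg h0
    ext b
    by_cases hb : b ∈ B
    · have h1 := hg _ (h.mem b hb)
      rw [hsum b hb, sum_eq_zero, add_zero] at h1
      · exact h1
      · intro e he
        simp only [mem_filter, mem_univ, true_and] at he
        exact h0 e (mem_compl.2 ((h.bip b e he).1 hb))
    · exact h0 b (mem_compl.2 hb)

end perp

/-- the number of edges of a fundamental graph of a perturbation of a graphic matroid -/
theorem edges_le {E W : Type*} [Fintype E] (x y : E → W) (k s : ℕ) (hs : 0 < s)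
    (C : Submodule (ZMod 2) (E → ZMod 2)) (hC : Near k C (cutSpace x y)) (B : Finset E)
    (G : SimpleGraph E) (hG : IsFund C B G) (A J : Finset E) (hA : A ⊆ B) (hJ : J ⊆ Bᶜ)
    (hK : KFree G.Adj s A J) : cnt G.Adj A J ≤ 7 * 4 ^ k * s * (A.card + J.card) := by
  set D := cutSpace x y with hD
  set U := C ⊓ D with hU
  -- the bases
  obtain ⟨B₀, hB₀, hU0⟩ := exists_base_subset U B fun u hu h => hG.inj u hu.1 h
  obtain ⟨B₁, hB₁, hD1⟩ := exists_base_superset U D inf_le_right B₀ hU0
  have hc0 := hU0.finrank_eq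
  have hc1 := hD1.finrank_eq
  have hc2 := hG.isBase.finrank_eq
  have hn1 : (B \ B₀).card ≤ k := by
    rw [card_sdiff_of_subset hB₀]
    have := hC.1
    rw [hc2, hc0] at this
    omega
  have hn2 : (B₁ \ B₀).card ≤ k := by
    rw [card_sdiff_of_subset hB₁]
    have := hC.2
    rw [hc1, hc0] at this
    omega
  -- fundamental vectors
  set cc : E → E → ZMod 2 := fun b e => if e = b ∨ G.Adj b e then 1 else 0 with hcc
  have hccB : ∀ b ∈ B, ∀ t ∈ B, cc b t = if t = b then 1 else 0 := by
    intro b hb t ht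
    have : ¬ G.Adj b t := fun h' => ((hG.bip b t h').1 hb) ht
    simp [hcc, this]
  obtain ⟨f, hf, hfT⟩ := hD1.exists_fund
  obtain ⟨d, hd, hdT⟩ := hU0.exists_fund
  obtain ⟨S, hSne, hSL, hSf⟩ := exists_laminar x y B₁ hD1 f (fun b _ => hf b) hfT
  have hformula : ∀ b ∈ B₀, ∀ e, cc b e = f b e +
      (∑ b' ∈ B \ B₀, d b b' * cc b' e + ∑ b' ∈ B₁ \ B₀, d b b' * f b' e) := by
    intro b hb e
    have h1 : d b = cc b + ∑ b' ∈ B \ B₀, d b b' • cc b' := by
      refine (hG.isBase.expand cc hG.mem hccB (d b) (hd b).1).trans ?_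
      rw [← sum_sdiff hB₀, add_comm]
      congr 1
      rw [sum_congr rfl fun b' hb' => by rw [hdT b hb b' hb']]
      simp [hb]
    have h2 : d b = f b + ∑ b' ∈ B₁ \ B₀, d b b' • f b' := by
      refine (hD1.expand f (fun b _ => hf b) hfT (d b) (hd b).2).trans ?_
      rw [← sum_sdiff hB₁, add_comm]
      congr 1
      rw [sum_congr rfl fun b' hb' => by rw [hdT b hb b' hb']]
      simp [hb]
    have h3 := congrFun h1 e
    have h4 := congrFun h2 e
    rw [h3] at h4
    simp only [Pi.add_apply, Finset.sum_apply, Pi.smul_apply, smul_eq_mul] at h4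
    have h5 := zmod2_add_self (∑ b' ∈ B \ B₀, d b b' * cc b' e)
    linear_combination h4 - h5
  -- the flips
  let α := ((B \ B₀ : Finset E) → ZMod 2) × ((B₁ \ B₀ : Finset E) → ZMod 2)
  let c' : E → α := fun b => (fun b' => d b b'.1, fun b' => d b b'.1)
  let d' : E → α := fun e => (fun b' => cc b'.1 e, fun b' => f b'.1 e)
  let fl : α → α → Prop := fun p q => ∑ i, p.1 i * q.1 i + ∑ i, p.2 i * q.2 i = 1
  have hfl : ∀ b e, fl (c' b) (d' e) ↔
      (∑ b' ∈ B \ B₀, d b b' * cc b' e + ∑ b' ∈ B₁ \ B₀, d b b' * f b' e) = 1 := by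
    intro b e
    simp only [fl, c', d']
    rw [← sum_coe_sort (B \ B₀) (fun b' => d b b' * cc b' e),
      ← sum_coe_sort (B₁ \ B₀) (fun b' => d b b' * f b' e)]
  have hadj : ∀ b ∈ B₀, ∀ e ∈ Bᶜ, (G.Adj b e ↔ ((x e ∈ S b ↔ y e ∈ S b) ↔ fl (c' b) (d' e))) := by
    intro b hb e he
    rw [mem_compl] at he
    have hbe : e ≠ b := fun h => he (h ▸ hB₀ hb)
    have h1 : G.Adj b e ↔ cc b e = 1 := by
      simp only [hcc]
      by_cases h : G.Adj b e <;> simp [h, hbe]
    have h2 := hSf b (hB₁ hb) e
    have h3 := hformula b hb e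
    rw [hfl, h1, h3]
    have h4 : (x e ∈ S b ↔ y e ∈ S b) ↔ ¬ f b e = 1 := by
      rw [h2, not_not]
    rw [h4]
    rcases zmod2_cases (f b e) with h5 | h5 <;>
    rcases zmod2_cases (∑ b' ∈ B \ B₀, d b b' * cc b' e + ∑ b' ∈ B₁ \ B₀, d b b' * f b' e) with
      h6 | h6 <;> rw [h5, h6] <;> decide
  have hcardα : Fintype.card α ≤ 4 ^ k := by
    simp only [α, Fintype.card_prod, Fintype.card_fun, ZMod.card, Fintype.card_coe]
    rw [← pow_add]
    calc 2 ^ ((B \ B₀).card + (B₁ \ B₀).card) ≤ 2 ^ (k + k) :=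
          Nat.pow_le_pow_right (by norm_num) (by omega)
      _ = 4 ^ k := by rw [← two_mul, pow_mul]; norm_num
  -- counting
  have hAB : A ∩ B₀ ⊆ B₀ := inter_subset_right
  have hflip := cnt_flip (S := S) (x := x) (y := y) (A := A ∩ B₀) (J := J) c' d' fl hs
    (fun b hb => hSne b (hB₁ (hAB hb))) (fun b hb c hc => hSL b (hB₁ (hAB hb)) c (hB₁ (hAB hc)))
    (hK.mono (fun e he i hi h => (hadj e (hAB he) i (hJ hi)).2 h) inter_subset_left subset_rfl)
  have h1 : cnt G.Adj (A ∩ B₀) J ≤ s * (4 * 4 ^ k * (A ∩ B₀).card + 6 * 4 ^ k * J.card) := by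
    refine (cnt_mono fun e he i hi h => (hadj e (hAB he) i (hJ hi)).1 h).trans (hflip.trans ?_)
    gcongr
  have h2 : cnt G.Adj A J ≤ cnt G.Adj (A ∩ B₀) J + (A \ B₀).card * J.card := by
    rw [cnt_eq_sum_left, cnt_eq_sum_left, ← sum_sdiff (inter_subset_left : A ∩ B₀ ⊆ A), add_comm]
    apply Nat.add_le_add_left
    rw [← smul_eq_mul, sdiff_inter_self_left]
    apply sum_le_card_nsmul
    intro b _
    exact card_le_card (filter_subset _ _)
  have h4 : (A ∩ B₀).card ≤ A.card := card_le_card inter_subset_left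
  have h5 : k ≤ 4 ^ k := (Nat.lt_pow_self (by norm_num)).le
  have h6 : (A \ B₀).card ≤ k := (card_le_card (sdiff_subset_sdiff hA subset_rfl)).trans hn1
  calc cnt G.Adj A J ≤ s * (4 * 4 ^ k * (A ∩ B₀).card + 6 * 4 ^ k * J.card) +
        (A \ B₀).card * J.card := h2.trans (Nat.add_le_add_right h1 _)
    _ ≤ s * (4 * 4 ^ k * A.card + 6 * 4 ^ k * J.card) + (s * 4 ^ k) * J.card := by
        gcongr
        calc (A \ B₀).card ≤ k := h6
          _ ≤ 1 * 4 ^ k := by omega
          _ ≤ s * 4 ^ k := Nat.mul_le_mul_right _ hs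
    _ ≤ 7 * 4 ^ k * s * (A.card + J.card) := by
        have : s * (4 * 4 ^ k * A.card + 6 * 4 ^ k * J.card) + (s * 4 ^ k) * J.card =
          s * 4 ^ k * (4 * A.card + 7 * J.card) := by ring
        rw [this]
        have h6 : 4 * A.card + 7 * J.card ≤ 7 * (A.card + J.card) := by omega
        calc _ ≤ s * 4 ^ k * (7 * (A.card + J.card)) := Nat.mul_le_mul_left _ h6
          _ = _ := by ring

/-- the linear bound for perturbations of graphic matroids -/
theorem linearBound_of_near_cut {E W : Type*} [Fintype E] (x y : E → W) (k : ℕ)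
    (C : Submodule (ZMod 2) (E → ZMod 2)) (hC : Near k C (cutSpace x y)) (B : Finset E)
    (G : SimpleGraph E) (hG : IsFund C B G) : LinearBound (14 * 4 ^ k) G := by
  intro s Z hfree
  have hs : 0 < s := by
    rcases Nat.eq_zero_or_pos s with h0 | h0
    · exfalso
      subst h0
      obtain ⟨a, ha, -⟩ := hfree ∅ (empty_subset _) ∅ (empty_subset _) rfl rfl
      exact absurd ha (by simp)
    · exact h0
  have h1 := edges_le x y k s hs C hC B G hG (Z ∩ B) (Z \ B) inter_subset_right
    (fun u hu => mem_compl.2 (mem_sdiff.1 hu).2)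
    (fun A' hA' J' hJ' h1 h2 => hfree.of_le A' J' (hA'.trans inter_subset_left)
      (hJ'.trans sdiff_subset) h1 h2)
  have h2 : ((Z ×ˢ Z).filter fun p => G.Adj p.1 p.2).card ≤ 2 * cnt G.Adj (Z ∩ B) (Z \ B) := by
    set S1 : Finset (E × E) := ((Z ∩ B) ×ˢ (Z \ B)).filter fun p => G.Adj p.1 p.2 with hS1
    have h3 : ((Z ×ˢ Z).filter fun p => G.Adj p.1 p.2) ⊆ S1 ∪ S1.image Prod.swap := by
      rintro ⟨u, w⟩ hp
      rw [mem_filter, mem_product] at hp
      obtain ⟨⟨hu, hw⟩, huw⟩ := hp
      simp only at hu hw huw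
      have h4 := hG.bip u w huw
      rw [mem_union]
      by_cases huB : u ∈ B
      · left
        rw [hS1, mem_filter, mem_product, mem_inter, mem_sdiff]
        exact ⟨⟨⟨hu, huB⟩, ⟨hw, h4.1 huB⟩⟩, huw⟩
      · right
        rw [mem_image]
        refine ⟨(w, u), ?_, rfl⟩
        rw [hS1, mem_filter, mem_product, mem_inter, mem_sdiff]
        have h5 := hG.bip w u huw.symm
        exact ⟨⟨⟨hw, h5.2 huB⟩, ⟨hu, huB⟩⟩, huw.symm⟩
    have h4 := (card_le_card h3).trans (card_union_le _ _)
    have h5 : (S1.image Prod.swap).card ≤ S1.card := card_image_le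
    have h6 : cnt G.Adj (Z ∩ B) (Z \ B) = S1.card := rfl
    omega
  have h3 : (Z ∩ B).card + (Z \ B).card = Z.card := by
    rw [add_comm]
    exact card_sdiff_add_card_inter Z B
  calc _ ≤ 2 * cnt G.Adj (Z ∩ B) (Z \ B) := h2
    _ ≤ 2 * (7 * 4 ^ k * s * ((Z ∩ B).card + (Z \ B).card)) := Nat.mul_le_mul_left _ h1
    _ = _ := by rw [h3]; ring

/-- the linear bound for perturbations of graphic and cographic matroids -/
theorem linearBound_of_near {E W : Type*} [Fintype E] (x y : E → W) (k : ℕ)
    (C : Submodule (ZMod 2) (E → ZMod 2))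
    (hC : Near k C (cutSpace x y) ∨ Near k C (perp (cutSpace x y))) (B : Finset E)
    (G : SimpleGraph E) (hG : IsFund C B G) : LinearBound (14 * 4 ^ k) G := by
  rcases hC with hC | hC
  · exact linearBound_of_near_cut x y k C hC B G hG
  · exact linearBound_of_near_cut x y k (perp C) hC.perp Bᶜ G hG.perp

theorem Built.mono {E : Type*} {Φ Ψ : SimpleGraph E → Prop} (hΦ : ∀ G', Φ G' → Ψ G') {q : ℕ}
    {G : SimpleGraph E} {X : Finset E} (h : Built Φ q G X) : Built Ψ q G X := by
  induction h with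
  | node X P hsub hdisj _ hq G' hG' hagree ih =>
    exact Built.node X P hsub hdisj ih hq G' (hΦ G' hG') hagree

/-- the linear bound for trees of perturbations of graphic and cographic matroids -/
theorem linearBound_of_built_perturbed {E : Type*} [Fintype E] {k q : ℕ} {G : SimpleGraph E}
    (h : Built (IsPerturbed k) q G univ) :
    LinearBound (5 + 2 * q + 14 * 4 ^ k * (q + 3) * (1 + 2 * q)) G := by
  apply linearBound_of_built
  apply h.mono
  rintro G' ⟨W, x, y, C, B, hC, hG⟩
  exact linearBound_of_near x y k C hC B G' hG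

end Pool.Agent.Helper32.Piv
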