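import Mathlib

/-!
# Menger's theorem (vertex form, sets) for finite graphs
-/

set_option autoImplicit false

open Finset
open scoped Classical

namespace Pool.Agent.Helper32.Piv

variable {V : Type*}

/-- `X` meets every walk from `A` to `B`. -/
def Sep (G : SimpleGraph V) (A B : Set V) (X : Set V) : Prop :=
  ∀ a ∈ A, ∀ b ∈ B, ∀ p : G.Walk a b, ∃ z ∈ p.support, z ∈ X

/-- `k` disjoint paths from `A` to `B`. -/
def PathSys (G : SimpleGraph V) (A B : Set V) (k : ℕ) : Prop :=
  ∃ (a b : Fin k → V) (p : ∀ i, G.Walk (a i) (b i)), (∀ i, a i ∈ A) ∧ (∀ i, b i ∈ B) ∧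
    (∀ i, (p i).IsPath) ∧ ∀ i j, i ≠ j → ∀ z, z ∈ (p i).support → z ∉ (p j).support

theorem Sep.symm {G : SimpleGraph V} {A B X : Set V} (h : Sep G A B X) : Sep G B A X := by
  intro b hb a ha p
  obtain ⟨z, hz, hX⟩ := h a ha b hb p.reverse
  exact ⟨z, by rwa [SimpleGraph.Walk.support_reverse, List.mem_reverse] at hz, hX⟩

theorem PathSys.symm {G : SimpleGraph V} {A B : Set V} {k : ℕ} (h : PathSys G A B k) :
    PathSys G B A k := by
  obtain ⟨a, b, p, h1, h2, h3, h4⟩ := h
  refine ⟨b, a, fun i => (p i).reverse, h2, h1, fun i => (h3 i).reverse, fun i j hij z hz => ?_⟩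
  rw [SimpleGraph.Walk.support_reverse, List.mem_reverse] at hz ⊢
  exact h4 i j hij z hz

theorem PathSys.mono {G G' : SimpleGraph V} (hG : G ≤ G') {A B A' B' : Set V} (hA : A ⊆ A')
    (hB : B ⊆ B') {k : ℕ} (h : PathSys G A B k) : PathSys G' A' B' k := by
  obtain ⟨a, b, p, h1, h2, h3, h4⟩ := h
  refine ⟨a, b, fun i => (p i).mapLe hG, fun i => hA (h1 i), fun i => hB (h2 i),
    fun i => (h3 i).mapLe hG, fun i j hij z hz => ?_⟩
  rw [SimpleGraph.Walk.support_mapLe_eq_support] at hz ⊢
  exact h4 i j hij z hz

/-- the vertices reachable from `A` outside of `S` -/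
def Rch (G : SimpleGraph V) (A S : Set V) : Set V :=
  {z | ∃ a ∈ A, ∃ p : G.Walk a z, ∀ w ∈ p.support, w ∉ S}

theorem Rch.notMem {G : SimpleGraph V} {A S : Set V} {z : V} (h : z ∈ Rch G A S) : z ∉ S := by
  obtain ⟨a, _, p, hp⟩ := h
  exact hp z p.end_mem_support

theorem Rch.base {G : SimpleGraph V} {A S : Set V} {z : V} (h : z ∈ A) (hS : z ∉ S) :
    z ∈ Rch G A S := ⟨z, h, SimpleGraph.Walk.nil, by simpa using hS⟩

theorem Rch.step {G : SimpleGraph V} {A S : Set V} {z w : V} (h : z ∈ Rch G A S)
    (hzw : G.Adj z w) (hw : w ∉ S) : w ∈ Rch G A S := by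
  obtain ⟨a, ha, p, hp⟩ := h
  refine ⟨a, ha, p.concat hzw, fun v hv => ?_⟩
  rw [SimpleGraph.Walk.support_concat, List.mem_append, List.mem_singleton] at hv
  rcases hv with hv | hv
  · exact hp v hv
  · rw [hv]
    exact hw

theorem disjoint_rch {G : SimpleGraph V} {A B S : Set V} (h : Sep G A B S) {z : V}
    (h1 : z ∈ Rch G A S) (h2 : z ∈ Rch G B S) : False := by
  obtain ⟨a, ha, p, hp⟩ := h1
  obtain ⟨b, hb, q, hq⟩ := h2
  obtain ⟨w, hw, hwS⟩ := h a ha b hb (p.append q.reverse)
  rw [SimpleGraph.Walk.mem_support_append_iff, SimpleGraph.Walk.support_reverse,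
    List.mem_reverse] at hw
  rcases hw with hw | hw
  · exact hp w hw hwS
  · exact hq w hw hwS

/-- a set closed under steps outside of `S` contains the end of every walk avoiding `S` -/
theorem closed_walk {G : SimpleGraph V} {S R : Set V}
    (hR : ∀ u ∈ R, ∀ v, G.Adj u v → v ∉ S → v ∈ R) {a b : V} (p : G.Walk a b)
    (hp : ∀ w ∈ p.support, w ∉ S) (ha : a ∈ R) : b ∈ R := by
  induction p with
  | nil => exact ha
  | @cons u v w h q ih =>
    apply ih
    · intro z hz
      apply hp
      rw [SimpleGraph.Walk.support_cons]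
      exact List.mem_cons_of_mem _ hz
    · apply hR u ha v h
      apply hp
      rw [SimpleGraph.Walk.support_cons]
      exact List.mem_cons_of_mem _ q.start_mem_support

section Step

variable {G G' : SimpleGraph V} {A B S : Set V} {x y : V}

/-- one end of the deleted edge is reachable from `A` -/
theorem exists_end (hG' : ∀ u v, G.Adj u v → u ≠ x → u ≠ y → G'.Adj u v)
    (hS : Sep G' A B S) (hnS : ¬ Sep G A B S) : x ∈ Rch G' A S ∨ y ∈ Rch G' A S := by
  by_contra hcon
  push Not at hcon
  unfold Sep at hnS
  push Not at hnS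
  obtain ⟨a, ha, b, hb, p, hp⟩ := hnS
  have h1 : b ∈ Rch G' A S := by
    refine closed_walk (R := Rch G' A S) (fun u hu v huv hv => ?_) p hp
      (Rch.base ha (hp a p.start_mem_support))
    apply Rch.step hu _ hv
    apply hG' u v huv
    · rintro rfl
      exact hcon.1 hu
    · rintro rfl
      exact hcon.2 hu
  exact disjoint_rch hS h1 (Rch.base hb (hp b p.end_mem_support))

/-- separating `A` from `S ∪ {x}` in `G - xy` separates `A` from `B` in `G` -/
theorem sep_of_sep (hG' : ∀ u v, G.Adj u v → ¬ (u = x ∧ v = y) → ¬ (u = y ∧ v = x) → G'.Adj u v)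
    (hS : Sep G' A B S) (hy : y ∈ Rch G' B S) {T : Set V}
    (hT : Sep G' A (insert x S) T) : Sep G A B T := by
  intro a ha b hb p
  by_contra hcon
  push Not at hcon
  -- vertices reachable from `A` outside of `T` and `S ∪ {x}`
  have hsub : ∀ z, z ∈ Rch G' A (T ∪ insert x S) → z ∈ Rch G' A S := by
    rintro z ⟨a', ha', q, hq⟩
    exact ⟨a', ha', q, fun w hw hwS => hq w hw (Or.inr (Or.inr hwS))⟩
  have hT0 : ∀ z, z ∈ insert x S → z ∉ Rch G' A T := by
    rintro z hz ⟨a', ha', q, hq⟩
    obtain ⟨w, hw, hwT⟩ := hT a' ha' z hz q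
    exact hq w hw hwT
  have hsub2 : ∀ z, z ∈ Rch G' A (T ∪ insert x S) → z ∈ Rch G' A T := by
    rintro z ⟨a', ha', q, hq⟩
    exact ⟨a', ha', q, fun w hw hwS => hq w hw (Or.inl hwS)⟩
  have haT : a ∉ T := hcon a p.start_mem_support
  have haX : a ∉ insert x S := fun h => hT0 a h (Rch.base ha haT)
  have h1 : b ∈ Rch G' A (T ∪ insert x S) := by
    refine closed_walk (S := T) (R := Rch G' A (T ∪ insert x S)) (fun u hu v huv hv => ?_) p hcon
      (Rch.base ha (by
        rintro (h | h)
        · exact haT h
        · exact haX h))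
    have huX : u ∉ insert x S := fun h => Rch.notMem hu (Or.inr h)
    have hadj : G'.Adj u v := by
      apply hG' u v huv
      · rintro ⟨h, _⟩
        exact huX (Or.inl h)
      · rintro ⟨h, _⟩
        subst h
        exact disjoint_rch hS (hsub _ hu) hy
    apply Rch.step hu hadj
    rintro (h | h)
    · exact hv h
    · exact hT0 v h (Rch.step (hsub2 u hu) hadj hv)
  have hbS : b ∉ S := fun h => Rch.notMem h1 (Or.inr (Or.inr h))
  exact disjoint_rch hS (hsub b h1) (Rch.base hb hbS)

end Step

/-- a path system ending in a set of the size of the system meets it only in the end points -/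
theorem pathSys_end {G : SimpleGraph V} {k : ℕ} {X : Finset V} (hX : X.card = k)
    {a b : Fin k → V} {p : ∀ i, G.Walk (a i) (b i)} (hb : ∀ i, b i ∈ X)
    (hdis : ∀ i j, i ≠ j → ∀ z, z ∈ (p i).support → z ∉ (p j).support) :
    (∀ v ∈ X, ∃ i, b i = v) ∧ ∀ i, ∀ w ∈ X, w ∈ (p i).support → w = b i := by
  have hinj : Function.Injective b := by
    intro i j hij
    by_contra hne
    apply hdis i j hne (b i) (p i).end_mem_support
    rw [hij]
    exact (p j).end_mem_support
  have hsurj : ∀ v ∈ X, ∃ i, b i = v := by
    intro v hv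
    have himg : Finset.univ.image b = X := by
      apply Finset.eq_of_subset_of_card_le
      · intro w hw
        rw [mem_image] at hw
        obtain ⟨i, _, rfl⟩ := hw
        exact hb i
      · rw [Finset.card_image_of_injective _ hinj, Finset.card_univ, Fintype.card_fin, hX]
    rw [← himg, mem_image] at hv
    obtain ⟨i, _, h⟩ := hv
    exact ⟨i, h⟩
  refine ⟨hsurj, fun i w hw hwi => ?_⟩
  obtain ⟨j, hj⟩ := hsurj w hw
  by_contra hne
  have hij : i ≠ j := by
    rintro rfl
    exact hne hj.symm
  apply hdis i j hij w hwi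
  rw [← hj]
  exact (p j).end_mem_support

/-- vertices of the paths outside of `S` are reachable outside of `S` -/
theorem mem_rch_of_mem {G : SimpleGraph V} {A S : Set V} {a b : V} (p : G.Walk a b)
    (hp : p.IsPath) (ha : a ∈ A) (hS : ∀ w ∈ p.support, w ∈ S → w = b) {z : V}
    (hz : z ∈ p.support) (hzS : z ∉ S) : z ∈ Rch G A S := by
  refine ⟨a, ha, p.takeUntil z hz, fun w hw hwS => ?_⟩
  have hwb : w = b := hS w (SimpleGraph.Walk.support_takeUntil_subset_support p hz hw) hwS
  have hne : b ≠ z := by
    rintro rfl
    exact hzS (hwb ▸ hwS)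
  exact SimpleGraph.Walk.endpoint_notMem_support_takeUntil hp hz hne (hwb ▸ hw)

/-- **Menger's theorem.** -/
theorem menger [Finite V] (G : SimpleGraph V) (A B : Set V) (k : ℕ)
    (h : ∀ X : Finset V, Sep G A B X → k ≤ X.card) : PathSys G A B k := by
  induction hn : G.edgeSet.ncard using Nat.strong_induction_on generalizing G A B with
  | _ n ih =>
  by_cases hE : ∃ x y, G.Adj x y
  · obtain ⟨x0, y0, hxy0⟩ := hE
    set G' : SimpleGraph V := G.deleteEdges {s(x0, y0)} with hG'
    have hle : G' ≤ G := SimpleGraph.deleteEdges_le _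
    have hadj' : ∀ u v, G.Adj u v → s(u, v) ≠ s(x0, y0) → G'.Adj u v := by
      intro u v huv hne
      rw [hG', SimpleGraph.deleteEdges_adj]
      exact ⟨huv, by simpa using hne⟩
    have hcard : G'.edgeSet.ncard < n := by
      rw [← hn]
      apply Set.ncard_lt_ncard _ (Set.toFinite _)
      rw [Set.ssubset_iff_of_subset (SimpleGraph.edgeSet_mono hle)]
      refine ⟨s(x0, y0), hxy0, ?_⟩
      rw [SimpleGraph.mem_edgeSet, hG', SimpleGraph.deleteEdges_adj]
      simp
    by_cases h' : ∀ X : Finset V, Sep G' A B X → k ≤ X.card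
    · exact (ih _ hcard G' A B h' rfl).mono hle subset_rfl subset_rfl
    · push Not at h'
      obtain ⟨S, hS, hSk⟩ := h'
      have hnS : ¬ Sep G A B S := fun hc => absurd (h S hc) (by omega)
      have hends1 : x0 ∈ Rch G' A S ∨ y0 ∈ Rch G' A S := by
        refine exists_end (fun u v huv h1 h2 => hadj' u v huv ?_) hS hnS
        intro hc
        rw [Sym2.eq_iff] at hc
        rcases hc with hc | hc
        · exact h1 hc.1
        · exact h2 hc.1
      have hends2 : x0 ∈ Rch G' B S ∨ y0 ∈ Rch G' B S := by
        refine exists_end (fun u v huv h1 h2 => hadj' u v huv ?_) hS.symm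
          (fun hc => hnS hc.symm)
        intro hc
        rw [Sym2.eq_iff] at hc
        rcases hc with hc | hc
        · exact h1 hc.1
        · exact h2 hc.1
      -- orient the edge
      obtain ⟨x, y, hxA, hyB, hsym⟩ : ∃ x y, x ∈ Rch G' A S ∧ y ∈ Rch G' B S ∧
          s(x, y) = s(x0, y0) := by
        rcases hends1 with h1 | h1
        · rcases hends2 with h2 | h2
          · exact absurd (disjoint_rch hS h1 h2) id
          · exact ⟨x0, y0, h1, h2, rfl⟩
        · rcases hends2 with h2 | h2
          · exact ⟨y0, x0, h1, h2, Sym2.eq_swap⟩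
          · exact absurd (disjoint_rch hS h1 h2) id
      have hxy : G.Adj x y := by
        rw [← SimpleGraph.mem_edgeSet, hsym]
        exact hxy0
      have hxS : x ∉ S := Rch.notMem hxA
      have hyS : y ∉ S := Rch.notMem hyB
      have hA2 : ∀ u v, G.Adj u v → ¬ (u = x ∧ v = y) → ¬ (u = y ∧ v = x) → G'.Adj u v := by
        intro u v huv h1 h2
        apply hadj' u v huv
        rw [← hsym]
        intro hc
        rw [Sym2.eq_iff] at hc
        rcases hc with hc | hc
        · exact h1 hc
        · exact h2 hc
      set X1 : Finset V := insert x S with hX1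
      set X2 : Finset V := insert y S with hX2
      have hX1c : (X1 : Set V) = insert x (S : Set V) := by
        rw [hX1, Finset.coe_insert]
      have hX2c : (X2 : Set V) = insert y (S : Set V) := by
        rw [hX2, Finset.coe_insert]
      have hk1 : ∀ T : Finset V, Sep G' A X1 T → k ≤ T.card := by
        intro T hT
        apply h T
        rw [hX1c] at hT
        exact sep_of_sep hA2 hS hyB hT
      have hk2 : ∀ T : Finset V, Sep G' X2 B T → k ≤ T.card := by
        intro T hT
        apply h T
        rw [hX2c] at hT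
        exact (sep_of_sep (fun u v huv h1 h2 => hA2 u v huv h2 h1) hS.symm hxA hT.symm).symm
      have hcX1 : X1.card = k := by
        have h1 : X1.card = S.card + 1 := by
          rw [hX1, Finset.card_insert_of_notMem]
          exact_mod_cast hxS
        have h2 : k ≤ X1.card := hk1 X1 fun a _ b hb p => ⟨b, p.end_mem_support, hb⟩
        omega
      have hcX2 : X2.card = k := by
        have h1 : X2.card = S.card + 1 := by
          rw [hX2, Finset.card_insert_of_notMem]
          exact_mod_cast hyS
        have h2 : k ≤ X2.card := hk2 X2 fun a ha b _ p => ⟨a, p.start_mem_support, ha⟩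
        omega
      obtain ⟨a, b, P, ha, hb, hP, hPd⟩ := ih _ hcard G' A X1 hk1 rfl
      obtain ⟨d, c, Q, hd, hc, hQ, hQd⟩ := (ih _ hcard G' X2 B hk2 rfl).symm
      -- `Q i` goes from `B` to `X2`
      obtain ⟨hb1, hb2⟩ := pathSys_end hcX1 (fun i => by exact_mod_cast hb i) hPd
      obtain ⟨hc1, hc2⟩ := pathSys_end hcX2 (fun i => by exact_mod_cast hc i) hQd
      have hbS : ∀ i, b i = x ∨ b i ∈ S := by
        intro i
        have : b i ∈ X1 := by exact_mod_cast hb i
        rwa [hX1, mem_insert] at this
      have hcS : ∀ i, c i = y ∨ c i ∈ S := by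
        intro i
        have : c i ∈ X2 := by exact_mod_cast hc i
        rwa [hX2, mem_insert] at this
      have hxS' : x ∉ S := by exact_mod_cast hxS
      have hyS' : y ∉ S := by exact_mod_cast hyS
      -- common vertices
      have hcom : ∀ i j z, z ∈ (P i).support → z ∈ (Q j).support → z ∈ S ∧ b i = z ∧ c j = z := by
        intro i j z hzP hzQ
        have hzS : z ∈ S := by
          by_contra hzS
          refine disjoint_rch hS
            (mem_rch_of_mem (P i) (hP i) (ha i) (fun w hw hwS => ?_) hzP (by exact_mod_cast hzS))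
            (mem_rch_of_mem (Q j) (hQ j) (hd j) (fun w hw hwS => ?_) hzQ (by exact_mod_cast hzS))
          · exact hb2 i w (by rw [hX1, mem_insert]; right; exact_mod_cast hwS) hw
          · exact hc2 j w (by rw [hX2, mem_insert]; right; exact_mod_cast hwS) hw
        exact ⟨hzS, (hb2 i z (by rw [hX1, mem_insert]; exact Or.inr hzS) hzP).symm,
          (hc2 j z (by rw [hX2, mem_insert]; exact Or.inr hzS) hzQ).symm⟩
      have hσ : ∀ i, ∃ j, c j = if b i = x then y else b i := by
        intro i
        apply hc1
        rw [hX2, mem_insert]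
        split_ifs with h1
        · exact Or.inl rfl
        · exact Or.inr ((hbS i).resolve_left h1)
      choose σ hσ using hσ
      have hcinj : ∀ j j', c j = c j' → j = j' := by
        intro j j' hjj
        by_contra hne
        apply hQd j j' hne (c j) (Q j).end_mem_support
        rw [hjj]
        exact (Q j').end_mem_support
      have hbinj : ∀ j j', b j = b j' → j = j' := by
        intro j j' hjj
        by_contra hne
        apply hPd j j' hne (b j) (P j).end_mem_support
        rw [hjj]
        exact (P j').end_mem_support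
      have hσinj : ∀ i i', σ i = σ i' → i = i' := by
        intro i i' hii
        apply hbinj
        have h1 := hσ i
        rw [hii, hσ i'] at h1
        split_ifs at h1 with h2 h3 h3
        · rw [h2, h3]
        · exfalso
          rcases hbS i with h4 | h4
          · exact h3 h4
          · rw [← h1] at h4
            exact hyS' h4
        · exfalso
          rcases hbS i' with h4 | h4
          · exact h2 h4
          · rw [h1] at h4
            exact hyS' h4
        · exact h1.symm
      -- the combined walks
      have hW : ∀ i, ∃ w : G.Walk (a i) (d (σ i)), w.IsPath ∧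
          ∀ z ∈ w.support, z ∈ (P i).support ∨ z ∈ (Q (σ i)).support := by
        intro i
        have key : ∀ w : G.Walk (a i) (d (σ i)),
            (∀ z ∈ w.support, z ∈ (P i).support ∨ z ∈ (Q (σ i)).support) →
            ∃ w : G.Walk (a i) (d (σ i)), w.IsPath ∧
              ∀ z ∈ w.support, z ∈ (P i).support ∨ z ∈ (Q (σ i)).support := by
          intro w hw
          exact ⟨w.bypass, w.bypass_isPath, fun z hz => hw z (w.support_bypass_subset_support hz)⟩
        have h1 := hσ i
        split_ifs at h1 with h2
        · have hadj : G.Adj (b i) (c (σ i)) := by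
            rw [h1, h2]
            exact hxy
          refine key (((P i).mapLe hle).append
            (SimpleGraph.Walk.cons hadj ((Q (σ i)).reverse.mapLe hle))) (fun z hz => ?_)
          rw [SimpleGraph.Walk.mem_support_append_iff, SimpleGraph.Walk.support_cons,
            List.mem_cons, SimpleGraph.Walk.support_mapLe_eq_support,
            SimpleGraph.Walk.support_mapLe_eq_support, SimpleGraph.Walk.support_reverse,
            List.mem_reverse] at hz
          rcases hz with hz | hz | hz
          · exact Or.inl hz
          · left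
            rw [hz]
            exact (P i).end_mem_support
          · exact Or.inr hz
        · refine key (((P i).mapLe hle).append
            (((Q (σ i)).reverse.mapLe hle).copy h1 rfl)) (fun z hz => ?_)
          rw [SimpleGraph.Walk.mem_support_append_iff, SimpleGraph.Walk.support_copy,
            SimpleGraph.Walk.support_mapLe_eq_support,
            SimpleGraph.Walk.support_mapLe_eq_support, SimpleGraph.Walk.support_reverse,
            List.mem_reverse] at hz
          exact hz
      choose W hWp hWs using hW
      refine ⟨a, fun i => d (σ i), W, ha, fun i => hd (σ i), hWp, fun i i' hii z hz hz' => ?_⟩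
      have hmix : ∀ i i', i ≠ i' → ∀ z, z ∈ (P i).support → z ∈ (Q (σ i')).support → False := by
        intro i i' hii z h1 h2
        obtain ⟨h3, h4, h5⟩ := hcom i (σ i') z h1 h2
        apply hii
        apply hbinj
        have h6 := hσ i'
        rw [h5] at h6
        split_ifs at h6 with h7
        · exact absurd (h6 ▸ h3) hyS'
        · rw [h4, h6]
      rcases hWs i z hz with h1 | h1 <;> rcases hWs i' z hz' with h2 | h2
      · exact hPd i i' hii z h1 h2
      · exact hmix i i' hii z h1 h2
      · exact hmix i' i (Ne.symm hii) z h2 h1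
      · exact hQd (σ i) (σ i') (fun hc => hii (hσinj i i' hc)) z h1 h2
  · -- no edges
    push Not at hE
    have hnil : ∀ (a b : V) (p : G.Walk a b), a = b := by
      intro a b p
      cases p with
      | nil => rfl
      | cons h q => exact absurd h (hE _ _)
    have := Fintype.ofFinite V
    set X : Finset V := Finset.univ.filter fun v => v ∈ A ∧ v ∈ B with hX
    have hk : k ≤ X.card := by
      apply h
      intro a ha b hb p
      have hab := hnil a b p
      subst hab
      refine ⟨a, p.start_mem_support, ?_⟩
      rw [hX]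
      simp [ha, hb]
    obtain ⟨f⟩ : Nonempty (Fin k ↪ X) := by
      rw [Function.Embedding.nonempty_iff_card_le]
      simpa using hk
    have hf : ∀ i, (f i : V) ∈ A ∧ (f i : V) ∈ B := by
      intro i
      have h1 := (f i).2
      have h2 : ∀ v, v ∈ X → v ∈ A ∧ v ∈ B := by
        intro v hv
        rw [hX, mem_filter] at hv
        exact hv.2
      exact h2 _ h1
    refine ⟨fun i => f i, fun i => f i, fun i => SimpleGraph.Walk.nil, fun i => (hf i).1,
      fun i => (hf i).2, fun i => SimpleGraph.Walk.IsPath.nil, fun i j hij z hz => ?_⟩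
    rw [SimpleGraph.Walk.support_nil, List.mem_singleton] at hz ⊢
    rw [hz]
    intro hc
    exact hij (f.injective (Subtype.ext hc))

end Pool.Agent.Helper32.Piv
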