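import Mathlib

/-!
# Pivots and Schur complements over the field with two elements

`PivotStep` is the relation of the frozen statement S08043. The main theorem `exists_elim` says that
for every set `S` of vertices whose adjacency matrix over `ZMod 2` is invertible, a sequence of
pivots on vertices of `S` leads to a graph whose adjacency matrix outside of `S` is the Schur
complement.
-/

set_option autoImplicit false
set_option linter.deprecated false

open Finset
open scoped Classical

namespace Pool.Agent.Helper32.Piv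

variable {V : Type*}

/-- toggling rule of a pivot on `u, v` -/
def PivotToggle (A : SimpleGraph V) (u v x y : V) : Prop :=
  (((A.Adj u x ∧ A.Adj v x) ∧ (A.Adj u y ∧ ¬ A.Adj v y ∧ y ≠ v)) ∨
    ((A.Adj u x ∧ ¬ A.Adj v x ∧ x ≠ v) ∧ (A.Adj u y ∧ A.Adj v y)) ∨
    ((A.Adj u x ∧ A.Adj v x) ∧ (A.Adj v y ∧ ¬ A.Adj u y ∧ y ≠ u)) ∨
    ((A.Adj v x ∧ ¬ A.Adj u x ∧ x ≠ u) ∧ (A.Adj u y ∧ A.Adj v y)) ∨
    ((A.Adj u x ∧ ¬ A.Adj v x ∧ x ≠ v) ∧ (A.Adj v y ∧ ¬ A.Adj u y ∧ y ≠ u)) ∨
    ((A.Adj v x ∧ ¬ A.Adj u x ∧ x ≠ u) ∧ (A.Adj u y ∧ ¬ A.Adj v y ∧ y ≠ v)))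

/-- one pivot (without the exchange of the names of the two vertices), as in S08043 -/
def PivotStep (A B : SimpleGraph V) : Prop :=
  ∃ u v : V, A.Adj u v ∧
    B = SimpleGraph.fromRel (fun x y => Xor' (A.Adj x y) (PivotToggle A u v x y))

/-- reachable by pivots -/
def PivotReach (A B : SimpleGraph V) : Prop := Relation.ReflTransGen PivotStep A B

/-- adjacency matrix with entries in `ZMod 2` -/
noncomputable def adjM (G : SimpleGraph V) (x y : V) : ZMod 2 := if G.Adj x y then 1 else 0

theorem adjM_comm (G : SimpleGraph V) (x y : V) : adjM G x y = adjM G y x := by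
  unfold adjM
  simp [G.adj_comm]

theorem adjM_self (G : SimpleGraph V) (x : V) : adjM G x x = 0 := by
  unfold adjM
  simp

theorem adjM_eq_one {G : SimpleGraph V} {x y : V} : adjM G x y = 1 ↔ G.Adj x y := by
  unfold adjM
  split_ifs with h <;> simp [h]

theorem adjM_eq_zero {G : SimpleGraph V} {x y : V} : adjM G x y = 0 ↔ ¬ G.Adj x y := by
  unfold adjM
  split_ifs with h <;> simp [h]

theorem toggle_symm (A : SimpleGraph V) (u v x y : V) :
    PivotToggle A u v x y ↔ PivotToggle A u v y x := by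
  have key : ∀ a b : V, PivotToggle A u v a b → PivotToggle A u v b a := by
    intro a b h
    unfold PivotToggle at h ⊢
    rcases h with h | h | h | h | h | h
    · exact Or.inr (Or.inl ⟨h.2, h.1⟩)
    · exact Or.inl ⟨h.2, h.1⟩
    · exact Or.inr (Or.inr (Or.inr (Or.inl ⟨h.2, h.1⟩)))
    · exact Or.inr (Or.inr (Or.inl ⟨h.2, h.1⟩))
    · exact Or.inr (Or.inr (Or.inr (Or.inr (Or.inr ⟨h.2, h.1⟩))))
    · exact Or.inr (Or.inr (Or.inr (Or.inr (Or.inl ⟨h.2, h.1⟩))))
  exact ⟨key x y, key y x⟩

/-- the pivot on `u v` -/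
def pivotG (A : SimpleGraph V) (u v : V) : SimpleGraph V :=
  SimpleGraph.fromRel (fun x y => Xor' (A.Adj x y) (PivotToggle A u v x y))

theorem pivotG_adj (A : SimpleGraph V) (u v x y : V) :
    (pivotG A u v).Adj x y ↔ x ≠ y ∧ Xor' (A.Adj x y) (PivotToggle A u v x y) := by
  unfold pivotG
  rw [SimpleGraph.fromRel_adj]
  constructor
  · rintro ⟨h, h1 | h1⟩
    · exact ⟨h, h1⟩
    · refine ⟨h, ?_⟩
      rw [A.adj_comm y x, toggle_symm A u v y x] at h1
      exact h1
  · rintro ⟨h, h1⟩
    exact ⟨h, Or.inl h1⟩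

/-- the pivot as a rank two update -/
theorem adjM_pivotG (A : SimpleGraph V) (u v x y : V) (hxu : x ≠ u) (hxv : x ≠ v) (hyu : y ≠ u)
    (hyv : y ≠ v) :
    adjM (pivotG A u v) x y =
      adjM A x y + adjM A x u * adjM A v y + adjM A x v * adjM A u y := by
  by_cases hxy : x = y
  · subst hxy
    rw [adjM_self, adjM_self, adjM_comm A x u, adjM_comm A x v, zero_add, mul_comm,
      ← two_mul]
    rw [show (2 : ZMod 2) = 0 from rfl, zero_mul]
  · unfold adjM
    simp only [pivotG_adj, PivotToggle, A.adj_comm x u, A.adj_comm x v]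
    by_cases h1 : A.Adj x y <;> by_cases h2 : A.Adj u x <;> by_cases h3 : A.Adj v x <;>
      by_cases h4 : A.Adj u y <;> by_cases h5 : A.Adj v y <;>
      simp [h1, h2, h3, h4, h5, hxy, hxu, hxv, hyu, hyv, Xor'] <;> rfl

theorem pivotG_step (A : SimpleGraph V) (u v : V) (h : A.Adj u v) : PivotStep A (pivotG A u v) :=
  ⟨u, v, h, rfl⟩

theorem PivotReach.refl (A : SimpleGraph V) : PivotReach A A := Relation.ReflTransGen.refl

theorem PivotReach.trans {A B C : SimpleGraph V} (h1 : PivotReach A B) (h2 : PivotReach B C) :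
    PivotReach A C := Relation.ReflTransGen.trans h1 h2

/-- **Elimination.** If `N` is a symmetric inverse of the adjacency matrix on `S`, then some graph
reachable by pivots has, outside of `S`, the Schur complement as its adjacency matrix. -/
theorem exists_elim (G : SimpleGraph V) (S : Finset V) (N : V → V → ZMod 2)
    (hsymm : ∀ s ∈ S, ∀ t ∈ S, N s t = N t s)
    (hinv : ∀ s ∈ S, ∀ s' ∈ S, ∑ t ∈ S, adjM G s t * N t s' = if s = s' then 1 else 0) :
    ∃ G' : SimpleGraph V, PivotReach G G' ∧ ∀ x y : V, x ∉ S → y ∉ S →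
      adjM G' x y = adjM G x y + ∑ s ∈ S, ∑ s' ∈ S, adjM G x s * N s s' * adjM G s' y := by
  induction h : S.card using Nat.strong_induction_on generalizing S G with
  | _ n ih =>
  rcases S.eq_empty_or_nonempty with rfl | ⟨u, hu⟩
  · exact ⟨G, PivotReach.refl G, fun x y _ _ => by simp⟩
  · -- a neighbour of `u` in `S`
    have hex : ∃ v ∈ S, G.Adj u v := by
      by_contra hcon
      push Not at hcon
      have h0 := hinv u hu u hu
      rw [if_pos rfl, Finset.sum_eq_zero] at h0
      · exact absurd h0 (by decide)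
      · intro t ht
        rw [adjM_eq_zero.2 (hcon t ht), zero_mul]
    obtain ⟨v, hv, huv⟩ := hex
    have hne : u ≠ v := huv.ne
    set S1 : Finset V := (S.erase u).erase v with hS1
    have hv1 : v ∈ S.erase u := mem_erase.2 ⟨hne.symm, hv⟩
    have hsum : ∀ f : V → ZMod 2, ∑ t ∈ S1, f t = (∑ t ∈ S, f t) + f u + f v := by
      intro f
      rw [← Finset.add_sum_erase S f hu, ← Finset.add_sum_erase (S.erase u) f hv1]
      have h2 : ∀ a : ZMod 2, a + a = 0 := by decide
      calc ∑ t ∈ S1, f t = (f u + f u) + (f v + f v) + ∑ t ∈ S1, f t := by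
            rw [h2, h2, zero_add, zero_add]
        _ = _ := by
            rw [← hS1]
            ring
    have hAuv : adjM G u v = 1 := adjM_eq_one.2 huv
    have hAvu : adjM G v u = 1 := adjM_eq_one.2 huv.symm
    have h2 : ∀ a : ZMod 2, a + a = 0 := by decide
    have hmem : ∀ s ∈ S1, s ∈ S ∧ s ≠ u ∧ s ≠ v := by
      intro s hs
      rw [hS1, mem_erase, mem_erase] at hs
      exact ⟨hs.2.2, hs.2.1, hs.1⟩
    -- rows of `u` and `v`
    have hrv : ∀ s' ∈ S1, ∑ t ∈ S1, adjM G v t * N t s' = N u s' := by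
      intro s' hs'
      obtain ⟨h1, h3, h4⟩ := hmem s' hs'
      rw [hsum, hinv v hv s' h1, if_neg (Ne.symm h4), hAvu, adjM_self]
      ring
    have hru : ∀ s' ∈ S1, ∑ t ∈ S1, adjM G u t * N t s' = N v s' := by
      intro s' hs'
      obtain ⟨h1, h3, h4⟩ := hmem s' hs'
      rw [hsum, hinv u hu s' h1, if_neg (Ne.symm h3), hAuv, adjM_self]
      ring
    set G1 := pivotG G u v with hG1
    have hA1 : ∀ x y : V, x ≠ u → x ≠ v → y ≠ u → y ≠ v →
        adjM G1 x y = adjM G x y + adjM G x u * adjM G v y + adjM G x v * adjM G u y :=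
      fun x y a b c d => adjM_pivotG G u v x y a b c d
    -- `P x s' = ∑ s ∈ S, A x s N s s'`
    have hP : ∀ x : V, x ≠ u → x ≠ v → ∀ s' ∈ S1,
        ∑ s ∈ S1, adjM G1 x s * N s s' = ∑ s ∈ S, adjM G x s * N s s' := by
      intro x hxu hxv s' hs'
      have e1 : ∀ s ∈ S1, adjM G1 x s * N s s' = adjM G x s * N s s' +
          adjM G x u * (adjM G v s * N s s') + adjM G x v * (adjM G u s * N s s') := by
        intro s hs
        obtain ⟨h1, h3, h4⟩ := hmem s hs
        rw [hA1 x s hxu hxv h3 h4]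
        ring
      rw [Finset.sum_congr rfl e1, Finset.sum_add_distrib, Finset.sum_add_distrib,
        ← Finset.mul_sum, ← Finset.mul_sum, hrv s' hs', hru s' hs', hsum]
      calc _ = (∑ s ∈ S, adjM G x s * N s s') + (adjM G x u * N u s' + adjM G x u * N u s') +
            (adjM G x v * N v s' + adjM G x v * N v s') := by ring
        _ = _ := by rw [h2, h2, add_zero, add_zero]
    have hcard : S1.card < n := by
      rw [← h, hS1]
      exact (Finset.card_lt_card (Finset.erase_ssubset hv1)).trans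
        (Finset.card_lt_card (Finset.erase_ssubset hu))
    obtain ⟨G', hG', hG'eq⟩ := ih S1.card hcard G1 S1
      (fun s hs t ht => hsymm s (hmem s hs).1 t (hmem t ht).1) (fun s hs s' hs' => by
        obtain ⟨h1, h3, h4⟩ := hmem s hs
        rw [hP s h3 h4 s' hs']
        exact hinv s h1 s' (hmem s' hs').1) rfl
    refine ⟨G', PivotReach.trans (Relation.ReflTransGen.single (pivotG_step G u v huv)) hG',
      fun x y hx hy => ?_⟩
    have hxu : x ≠ u := fun e => hx (e ▸ hu)
    have hxv : x ≠ v := fun e => hx (e ▸ hv)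
    have hyu : y ≠ u := fun e => hy (e ▸ hu)
    have hyv : y ≠ v := fun e => hy (e ▸ hv)
    have hxS : x ∉ S1 := fun e => hx (hmem x e).1
    have hyS : y ∉ S1 := fun e => hy (hmem y e).1
    rw [hG'eq x y hxS hyS, Finset.sum_comm]
    -- the right hand side
    have e1 : ∀ s' ∈ S1, ∑ s ∈ S1, adjM G1 x s * N s s' * adjM G1 s' y =
        (∑ s ∈ S, adjM G x s * N s s') * adjM G1 s' y := by
      intro s' hs'
      rw [← Finset.sum_mul, hP x hxu hxv s' hs']
    rw [Finset.sum_congr rfl e1]
    set P : V → ZMod 2 := fun s' => ∑ s ∈ S, adjM G x s * N s s' with hPdef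
    have hNA : ∀ s ∈ S, ∀ w ∈ S, ∑ s' ∈ S, N s s' * adjM G s' w = if s = w then 1 else 0 := by
      intro s hs w hw
      have := hinv w hw s hs
      rw [show (if s = w then (1 : ZMod 2) else 0) = if w = s then 1 else 0 by simp [eq_comm],
        ← this]
      refine Finset.sum_congr rfl fun t ht => ?_
      rw [adjM_comm G w t, hsymm s hs t ht, mul_comm]
    have hPA : ∀ w ∈ S, ∑ s' ∈ S, P s' * adjM G s' w = adjM G x w := by
      intro w hw
      simp only [hPdef, Finset.sum_mul]
      rw [Finset.sum_comm]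
      have e2 : ∀ s ∈ S, ∑ s' ∈ S, adjM G x s * N s s' * adjM G s' w =
          if s = w then adjM G x w else 0 := by
        intro s hs
        have e3 : ∀ s' ∈ S, adjM G x s * N s s' * adjM G s' w =
            adjM G x s * (N s s' * adjM G s' w) := fun s' _ => by ring
        rw [Finset.sum_congr rfl e3, ← Finset.mul_sum, hNA s hs w hw]
        split_ifs with h5
        · rw [h5, mul_one]
        · rw [mul_zero]
      rw [Finset.sum_congr rfl e2, Finset.sum_ite_eq' S w, if_pos hw]
    have hPu : ∑ s' ∈ S1, P s' * adjM G s' u = adjM G x u + P v := by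
      rw [hsum, hPA u hu, adjM_self, hAvu]
      ring
    have hPv : ∑ s' ∈ S1, P s' * adjM G s' v = adjM G x v + P u := by
      rw [hsum, hPA v hv, adjM_self, hAuv]
      ring
    have e4 : ∀ s' ∈ S1, P s' * adjM G1 s' y = P s' * adjM G s' y +
        (P s' * adjM G s' u) * adjM G v y + (P s' * adjM G s' v) * adjM G u y := by
      intro s' hs'
      obtain ⟨h1, h3, h4⟩ := hmem s' hs'
      rw [hA1 s' y h3 h4 hyu hyv]
      ring
    have e5 : ∑ s ∈ S, ∑ s' ∈ S, adjM G x s * N s s' * adjM G s' y =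
        ∑ s' ∈ S, P s' * adjM G s' y := by
      rw [Finset.sum_comm]
      refine Finset.sum_congr rfl fun s' _ => ?_
      rw [← Finset.sum_mul]
    rw [show (∑ s' ∈ S1, (∑ s ∈ S, adjM G x s * N s s') * adjM G1 s' y) =
      ∑ s' ∈ S1, P s' * adjM G1 s' y from rfl, Finset.sum_congr rfl e4, Finset.sum_add_distrib,
      Finset.sum_add_distrib, ← Finset.sum_mul, ← Finset.sum_mul, hPu, hPv, hsum,
      hA1 x y hxu hxv hyu hyv, e5]
    calc _ = adjM G x y + ∑ s' ∈ S, P s' * adjM G s' y +
          (adjM G x u * adjM G v y + adjM G x u * adjM G v y) +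
          (adjM G x v * adjM G u y + adjM G x v * adjM G u y) +
          (P u * adjM G u y + P u * adjM G u y) + (P v * adjM G v y + P v * adjM G v y) := by ring
      _ = _ := by
          rw [h2, h2, h2, h2]
          ring

end Pool.Agent.Helper32.Piv
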