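import Pool.Agent.Helper32.Piv.Pivot

/-!
# Elimination of blocks and of induced paths
-/

set_option autoImplicit false

open Finset
open scoped Classical

namespace Pool.Agent.Helper32.Piv

variable {V : Type*}

/-- Elimination of pairwise anticomplete blocks: the changes add up. -/
theorem exists_elim_blocks {ι : Type*} (E : Finset ι) (G : SimpleGraph V) (S : ι → Finset V)
    (N : ι → V → V → ZMod 2)
    (hdisj : ∀ e ∈ E, ∀ f ∈ E, e ≠ f → ∀ s ∈ S e, ∀ t ∈ S f, s ≠ t ∧ ¬ G.Adj s t)
    (hsymm : ∀ e ∈ E, ∀ s ∈ S e, ∀ t ∈ S e, N e s t = N e t s)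
    (hinv : ∀ e ∈ E, ∀ s ∈ S e, ∀ s' ∈ S e,
      ∑ t ∈ S e, adjM G s t * N e t s' = if s = s' then 1 else 0) :
    ∃ G' : SimpleGraph V, PivotReach G G' ∧
      ∀ x y : V, (∀ e ∈ E, x ∉ S e) → (∀ e ∈ E, y ∉ S e) →
      adjM G' x y = adjM G x y +
        ∑ e ∈ E, ∑ s ∈ S e, ∑ s' ∈ S e, adjM G x s * N e s s' * adjM G s' y := by
  have huniq : ∀ e ∈ E, ∀ f ∈ E, ∀ s, s ∈ S e → s ∈ S f → e = f := by
    intro e he f hf s h1 h2
    by_contra hne
    exact (hdisj e he f hf hne s h1 s h2).1 rfl
  set M : V → V → ZMod 2 := fun s t =>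
    ∑ e ∈ E, if s ∈ S e ∧ t ∈ S e then N e s t else 0 with hM
  have hMin : ∀ e ∈ E, ∀ s ∈ S e, ∀ t ∈ S e, M s t = N e s t := by
    intro e he s hs t ht
    simp only [hM]
    rw [Finset.sum_eq_single e]
    · rw [if_pos ⟨hs, ht⟩]
    · intro f hf hfe
      rw [if_neg]
      rintro ⟨h1, _⟩
      exact hfe (huniq f hf e he s h1 hs)
    · intro h
      exact absurd he h
  have hMout : ∀ e ∈ E, ∀ f ∈ E, e ≠ f → ∀ s ∈ S e, ∀ t ∈ S f, M s t = 0 := by
    intro e he f hf hef s hs t ht
    simp only [hM]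
    apply Finset.sum_eq_zero
    intro g hg
    rw [if_neg]
    rintro ⟨h1, h2⟩
    exact hef ((huniq e he g hg s hs h1).trans (huniq f hf g hg t ht h2).symm)
  set U : Finset V := E.biUnion S with hU
  have hpd : (E : Set ι).PairwiseDisjoint S := by
    intro e he f hf hef
    rw [Function.onFun, Finset.disjoint_left]
    intro s h1 h2
    exact hef (huniq e he f hf s h1 h2)
  have hside1 : ∀ s ∈ U, ∀ t ∈ U, M s t = M t s := by
    intro s hs t ht
    rw [hU, Finset.mem_biUnion] at hs ht
    obtain ⟨e, he, hs⟩ := hs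
    obtain ⟨f, hf, ht⟩ := ht
    by_cases hef : e = f
    · subst hef
      rw [hMin e he s hs t ht, hMin e he t ht s hs, hsymm e he s hs t ht]
    · rw [hMout e he f hf hef s hs t ht, hMout f hf e he (Ne.symm hef) t ht s hs]
  have hside2 : ∀ s ∈ U, ∀ s' ∈ U, ∑ t ∈ U, adjM G s t * M t s' = if s = s' then 1 else 0 := by
    intro s hs s' hs'
    rw [hU, Finset.mem_biUnion] at hs hs'
    obtain ⟨e, he, hs⟩ := hs
    obtain ⟨f, hf, hs'⟩ := hs'
    rw [hU, Finset.sum_biUnion hpd, Finset.sum_eq_single f]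
    · by_cases hef : e = f
      · subst hef
        rw [← hinv e he s hs s' hs']
        exact Finset.sum_congr rfl fun t ht => by rw [hMin e he t ht s' hs']
      · rw [if_neg (hdisj e he f hf hef s hs s' hs').1]
        apply Finset.sum_eq_zero
        intro t ht
        rw [adjM_eq_zero.2 (hdisj e he f hf hef s hs t ht).2, zero_mul]
    · intro g hg hgf
      apply Finset.sum_eq_zero
      intro t ht
      rw [hMout g hg f hf hgf t ht s' hs', mul_zero]
    · intro h
      exact absurd hf h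
  obtain ⟨G', hG', hG'eq⟩ := exists_elim G U M hside1 hside2
  refine ⟨G', hG', fun x y hx hy => ?_⟩
  have hxU : x ∉ U := by
    rw [hU, Finset.mem_biUnion]
    rintro ⟨e, he, h⟩
    exact hx e he h
  have hyU : y ∉ U := by
    rw [hU, Finset.mem_biUnion]
    rintro ⟨e, he, h⟩
    exact hy e he h
  rw [hG'eq x y hxU hyU]
  congr 1
  rw [hU, Finset.sum_biUnion hpd]
  refine Finset.sum_congr rfl fun e he => Finset.sum_congr rfl fun s hs => ?_
  rw [Finset.sum_biUnion hpd, Finset.sum_eq_single e]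
  · exact Finset.sum_congr rfl fun s' hs' => by rw [hMin e he s hs s' hs']
  · intro f hf hfe
    apply Finset.sum_eq_zero
    intro s' hs'
    rw [hMout e he f hf (Ne.symm hfe) s hs s' hs', mul_zero, zero_mul]
  · intro h
    exact absurd he h

/-- inverse of the adjacency matrix of a path with an even number of vertices -/
def pathInv (i j : ℕ) : ZMod 2 :=
  if (i % 2 = 0 ∧ j % 2 = 1 ∧ i < j) ∨ (j % 2 = 0 ∧ i % 2 = 1 ∧ j < i) then 1 else 0

theorem pathInv_comm (i j : ℕ) : pathInv i j = pathInv j i := by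
  unfold pathInv
  congr 1
  exact propext ⟨fun h => h.symm, fun h => h.symm⟩

/-- the path matrix -/
def pathM (i j : ℕ) : ZMod 2 := if j = i + 1 ∨ i = j + 1 then 1 else 0

theorem pathM_mul (m i j : ℕ) (hi : i < 2 * m) (hj : j < 2 * m) :
    ∑ t ∈ range (2 * m), pathM i t * pathInv t j = if i = j then 1 else 0 := by
  -- the sum has at most the two terms `t = i - 1` and `t = i + 1`
  have h1 : ∑ t ∈ range (2 * m), pathM i t * pathInv t j =
      (if 0 < i then pathInv (i - 1) j else 0) +
        (if i + 1 < 2 * m then pathInv (i + 1) j else 0) := by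
    have e1 : ∀ t ∈ range (2 * m), pathM i t * pathInv t j =
        (if i - 1 = t then (if 0 < i then pathInv t j else 0) else 0) +
          (if i + 1 = t then pathInv t j else 0) := by
      intro t _
      unfold pathM
      by_cases h1 : t = i + 1
      · subst h1
        rw [if_pos (Or.inl rfl), if_neg (by omega), if_pos rfl, one_mul, zero_add]
      · by_cases h2 : i = t + 1
        · subst h2
          rw [if_pos (Or.inr rfl), if_pos (by omega), if_pos (by omega), if_neg (by omega),
            one_mul, add_zero]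
        · rw [if_neg (by tauto), zero_mul, if_neg (Ne.symm h1), add_zero]
          by_cases h3 : i - 1 = t
          · rw [if_pos h3, if_neg (by omega)]
          · rw [if_neg h3]
    rw [Finset.sum_congr rfl e1, Finset.sum_add_distrib, Finset.sum_ite_eq, Finset.sum_ite_eq,
      if_pos (by rw [mem_range]; omega)]
    simp only [mem_range]
  rw [h1]
  unfold pathInv
  by_cases hi0 : 0 < i
  · rw [if_pos hi0]
    by_cases hi1 : i + 1 < 2 * m
    · rw [if_pos hi1]
      by_cases hij : i = j
      · rw [if_pos hij]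
        rcases Nat.mod_two_eq_zero_or_one i with h | h
        · rw [if_neg (by omega), if_pos (by omega), zero_add]
        · rw [if_pos (by omega), if_neg (by omega), add_zero]
      · rw [if_neg hij]
        by_cases hc : ((i - 1) % 2 = 0 ∧ j % 2 = 1 ∧ i - 1 < j) ∨
            (j % 2 = 0 ∧ (i - 1) % 2 = 1 ∧ j < i - 1)
        · rw [if_pos hc, if_pos (by omega)]
          decide
        · rw [if_neg hc, if_neg (by omega), add_zero]
    · rw [if_neg hi1, add_zero]
      by_cases hij : i = j
      · rw [if_pos hij, if_pos (by omega)]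
      · rw [if_neg hij, if_neg (by omega)]
  · rw [if_neg hi0, zero_add, if_pos (by omega)]
    by_cases hij : i = j
    · rw [if_pos hij, if_pos (by omega)]
    · rw [if_neg hij, if_neg (by omega)]

/-- Data of a link: an induced path with `2 m` vertices, `m ≥ 1`. -/
structure IsInducedPath (G : SimpleGraph V) (m : ℕ) (p : ℕ → V) : Prop where
  pos : 0 < m
  inj : ∀ i < 2 * m, ∀ j < 2 * m, p i = p j → i = j
  adj : ∀ i < 2 * m, ∀ j < 2 * m, (G.Adj (p i) (p j) ↔ (j = i + 1 ∨ i = j + 1))

/-- Elimination of pairwise anticomplete induced paths with even numbers of vertices; the general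
formula. -/
theorem exists_elim_paths {ι : Type*} (E : Finset ι) (G : SimpleGraph V) (m : ι → ℕ)
    (p : ι → ℕ → V) (hp : ∀ e ∈ E, IsInducedPath G (m e) (p e))
    (hdisj : ∀ e ∈ E, ∀ f ∈ E, e ≠ f → ∀ i < 2 * m e, ∀ j < 2 * m f,
      p e i ≠ p f j ∧ ¬ G.Adj (p e i) (p f j)) :
    ∃ G' : SimpleGraph V, PivotReach G G' ∧
      ∀ x y : V, (∀ e ∈ E, ∀ i < 2 * m e, x ≠ p e i) → (∀ e ∈ E, ∀ i < 2 * m e, y ≠ p e i) →
      adjM G' x y = adjM G x y +
        ∑ e ∈ E, ∑ i ∈ range (2 * m e), ∑ j ∈ range (2 * m e),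
          adjM G x (p e i) * pathInv i j * adjM G (p e j) y := by
  set S : ι → Finset V := fun e => (range (2 * m e)).image (p e) with hS
  have hinj : ∀ e ∈ E, ∀ i ∈ range (2 * m e), ∀ j ∈ range (2 * m e), p e i = p e j → i = j :=
    fun e he i hi j hj h => (hp e he).inj i (mem_range.1 hi) j (mem_range.1 hj) h
  set N : ι → V → V → ZMod 2 := fun e s t =>
    ∑ i ∈ range (2 * m e), ∑ j ∈ range (2 * m e),
      if p e i = s ∧ p e j = t then pathInv i j else 0 with hN
  have hNeq : ∀ e ∈ E, ∀ i ∈ range (2 * m e), ∀ j ∈ range (2 * m e),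
      N e (p e i) (p e j) = pathInv i j := by
    intro e he i hi j hj
    simp only [hN]
    rw [Finset.sum_eq_single i, Finset.sum_eq_single j]
    · rw [if_pos ⟨rfl, rfl⟩]
    · intro j' hj' hne
      rw [if_neg]
      rintro ⟨_, h⟩
      exact hne (hinj e he j' hj' j hj h)
    · intro h
      exact absurd hj h
    · intro i' hi' hne
      apply Finset.sum_eq_zero
      intro j' _
      rw [if_neg]
      rintro ⟨h, _⟩
      exact hne (hinj e he i' hi' i hi h)
    · intro h
      exact absurd hi h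
  have hsumS : ∀ e ∈ E, ∀ f : V → ZMod 2, ∑ s ∈ S e, f s = ∑ i ∈ range (2 * m e), f (p e i) := by
    intro e he f
    simp only [hS]
    rw [Finset.sum_image]
    intro i hi j hj h
    exact hinj e he i hi j hj h
  have hside1 : ∀ e ∈ E, ∀ f ∈ E, e ≠ f → ∀ s ∈ S e, ∀ t ∈ S f, s ≠ t ∧ ¬ G.Adj s t := by
    intro e he f hf hef s hs t ht
    simp only [hS, mem_image, mem_range] at hs ht
    obtain ⟨i, hi, rfl⟩ := hs
    obtain ⟨j, hj, rfl⟩ := ht
    exact hdisj e he f hf hef i hi j hj
  have hside2 : ∀ e ∈ E, ∀ s ∈ S e, ∀ t ∈ S e, N e s t = N e t s := by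
    intro e he s hs t ht
    simp only [hS, mem_image] at hs ht
    obtain ⟨i, hi, rfl⟩ := hs
    obtain ⟨j, hj, rfl⟩ := ht
    rw [hNeq e he i hi j hj, hNeq e he j hj i hi, pathInv_comm]
  have hside3 : ∀ e ∈ E, ∀ s ∈ S e, ∀ s' ∈ S e,
      ∑ t ∈ S e, adjM G s t * N e t s' = if s = s' then 1 else 0 := by
    intro e he s hs s' hs'
    simp only [hS, mem_image] at hs hs'
    obtain ⟨i, hi, rfl⟩ := hs
    obtain ⟨j, hj, rfl⟩ := hs'
    rw [hsumS e he]
    have e1 : ∀ t ∈ range (2 * m e), adjM G (p e i) (p e t) * N e (p e t) (p e j) =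
        pathM i t * pathInv t j := by
      intro t ht
      rw [hNeq e he t ht j hj]
      congr 1
      unfold adjM pathM
      congr 1
      exact propext ((hp e he).adj i (mem_range.1 hi) t (mem_range.1 ht))
    rw [Finset.sum_congr rfl e1, pathM_mul (m e) i j (mem_range.1 hi) (mem_range.1 hj)]
    congr 1
    exact propext ⟨fun h => by rw [h], fun h => hinj e he i hi j hj h⟩
  obtain ⟨G', hG', heq⟩ := exists_elim_blocks E G S N hside1 hside2 hside3
  refine ⟨G', hG', fun x y hx hy => ?_⟩
  rw [heq x y]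
  · congr 1
    refine Finset.sum_congr rfl fun e he => ?_
    rw [hsumS e he]
    refine Finset.sum_congr rfl fun i hi => ?_
    rw [hsumS e he]
    refine Finset.sum_congr rfl fun j hj => ?_
    rw [hNeq e he i hi j hj]
  · intro e he hmem
    simp only [hS, mem_image, mem_range] at hmem
    obtain ⟨i, hi, h⟩ := hmem
    exact hx e he i hi h.symm
  · intro e he hmem
    simp only [hS, mem_image, mem_range] at hmem
    obtain ⟨i, hi, h⟩ := hmem
    exact hy e he i hi h.symm

/-- **Links.** If `x, y` outside of the paths see the paths only at their ends, then eliminating the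
paths toggles exactly the pairs (neighbour of the first vertex, neighbour of the last vertex). -/
theorem exists_elim_links {ι : Type*} (E : Finset ι) (G : SimpleGraph V) (m : ι → ℕ)
    (p : ι → ℕ → V) (hp : ∀ e ∈ E, IsInducedPath G (m e) (p e))
    (hdisj : ∀ e ∈ E, ∀ f ∈ E, e ≠ f → ∀ i < 2 * m e, ∀ j < 2 * m f,
      p e i ≠ p f j ∧ ¬ G.Adj (p e i) (p f j)) :
    ∃ G' : SimpleGraph V, PivotReach G G' ∧
      ∀ x y : V, (∀ e ∈ E, ∀ i < 2 * m e, x ≠ p e i) → (∀ e ∈ E, ∀ i < 2 * m e, y ≠ p e i) →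
      (∀ e ∈ E, ∀ i < 2 * m e, 0 < i → i + 1 < 2 * m e → ¬ G.Adj x (p e i) ∧ ¬ G.Adj y (p e i)) →
      adjM G' x y = adjM G x y +
        ∑ e ∈ E, (adjM G x (p e 0) * adjM G (p e (2 * m e - 1)) y +
          adjM G x (p e (2 * m e - 1)) * adjM G (p e 0) y) := by
  obtain ⟨G', hG', heq⟩ := exists_elim_paths E G m p hp hdisj
  refine ⟨G', hG', fun x y hx hy hxy => ?_⟩
  rw [heq x y hx hy]
  congr 1
  refine Finset.sum_congr rfl fun e he => ?_
  have hm := (hp e he).pos
  have hzx : ∀ i ∈ range (2 * m e), i ≠ 0 → i ≠ 2 * m e - 1 → adjM G x (p e i) = 0 := by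
    intro i hi h1 h2
    rw [mem_range] at hi
    exact adjM_eq_zero.2 (hxy e he i hi (by omega) (by omega)).1
  have hzy : ∀ i ∈ range (2 * m e), i ≠ 0 → i ≠ 2 * m e - 1 → adjM G (p e i) y = 0 := by
    intro i hi h1 h2
    rw [mem_range] at hi
    rw [adjM_comm]
    exact adjM_eq_zero.2 (hxy e he i hi (by omega) (by omega)).2
  have h2 : ∀ f : ℕ → ZMod 2, (∀ i ∈ range (2 * m e), i ≠ 0 → i ≠ 2 * m e - 1 → f i = 0) →
      ∑ i ∈ range (2 * m e), f i = f 0 + f (2 * m e - 1) := by
    intro f hf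
    rw [← Finset.sum_subset (s₁ := {0, 2 * m e - 1})]
    · rw [Finset.sum_pair (by omega)]
    · intro i hi
      rw [mem_insert, mem_singleton] at hi
      rw [mem_range]
      omega
    · intro i hi hni
      rw [mem_insert, mem_singleton, not_or] at hni
      exact hf i hi hni.1 hni.2
  rw [h2]
  · rw [h2, h2]
    · have e00 : pathInv 0 0 = 0 := by decide
      have e01 : pathInv 0 (2 * m e - 1) = 1 := by
        unfold pathInv
        rw [if_pos]
        omega
      have e11 : pathInv (2 * m e - 1) (2 * m e - 1) = 0 := by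
        unfold pathInv
        rw [if_neg]
        omega
      rw [e00, e01, pathInv_comm, e01, e11]
      ring
    · intro i hi ha hb
      rw [hzy i hi ha hb, mul_zero]
    · intro i hi ha hb
      rw [hzy i hi ha hb, mul_zero]
  · intro i hi ha hb
    apply Finset.sum_eq_zero
    intro j _
    rw [hzx i hi ha hb, zero_mul, zero_mul]

end Pool.Agent.Helper32.Piv
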