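import Pool.Agent.Helper32.Piv.Lam
import Pool.Agent.Helper32.Piv.Defs

/-!
# Linear average degree bounds and decompositions with few neighbourhoods

We show that the property that every induced subgraph without `K_{s,s}` has average degree at most
`c s` (for all `s`) is preserved, up to the constant, under tree-like decompositions in which every
branch has a bounded number of neighbourhoods outside of the branch.
-/

set_option autoImplicit false

open Finset
open scoped Classical

namespace Pool.Agent.Helper32.Piv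

variable {E : Type*}

theorem NoBiclique.of_le {G : SimpleGraph E} {s : ℕ} {Z : Finset E} (h : NoBiclique G s Z)
    (A J : Finset E) (hA : A ⊆ Z) (hJ : J ⊆ Z) (h1 : s ≤ A.card) (h2 : s ≤ J.card) :
    ∃ a ∈ A, ∃ b ∈ J, ¬ G.Adj a b := by
  obtain ⟨A', hA', hA2⟩ := exists_subset_card_eq h1
  obtain ⟨J', hJ', hJ2⟩ := exists_subset_card_eq h2
  obtain ⟨a, ha, b, hb, hab⟩ := h A' (hA'.trans hA) J' (hJ'.trans hJ) hA2 hJ2
  exact ⟨a, hA' ha, b, hJ' hb, hab⟩

/-- a union of classes of size between `s` and `s + L` -/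
theorem exists_group' {κ : Type*} (cl : E → κ) (s L : ℕ) (hs : 0 < s) (N : Finset E)
    (hcl : ∀ e ∈ N, (N.filter fun f => cl f = cl e).card ≤ L) (hN : s ≤ N.card) :
    ∃ Z ⊆ N, s ≤ Z.card ∧ Z.card < s + L ∧ ∀ a ∈ Z, ∀ b ∈ N, cl b = cl a → b ∈ Z := by
  set F := N.powerset.filter fun Z => s ≤ Z.card ∧ ∀ a ∈ Z, ∀ b ∈ N, cl b = cl a → b ∈ Z with hF
  have hFn : F.Nonempty := ⟨N, by
    simp only [hF, mem_filter, mem_powerset]
    exact ⟨subset_rfl, hN, fun _ _ b hb _ => hb⟩⟩
  obtain ⟨Z, hZ, hmin⟩ := exists_min_image F card hFn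
  have hZ' := hZ
  simp only [hF, mem_filter, mem_powerset] at hZ'
  refine ⟨Z, hZ'.1, hZ'.2.1, ?_, hZ'.2.2⟩
  have hZn : Z.Nonempty := by rw [← card_pos]; omega
  obtain ⟨z, hz⟩ := hZn
  set Z1 := Z.filter fun f => cl f ≠ cl z with hZ1
  have h1 : Z.card = (Z.filter fun f => cl f = cl z).card + Z1.card :=
    (card_filter_add_card_filter_not _).symm
  have h2 : (Z.filter fun f => cl f = cl z).card ≤ L :=
    (card_le_card (filter_subset_filter _ hZ'.1)).trans (hcl z (hZ'.1 hz))
  have h3 : Z1.card < s := by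
    by_contra hcon
    push Not at hcon
    have hmem : Z1 ∈ F := by
      simp only [hF, mem_filter, mem_powerset]
      refine ⟨(filter_subset _ _).trans hZ'.1, hcon, fun a ha b hb hab => ?_⟩
      simp only [hZ1, mem_filter] at ha ⊢
      exact ⟨hZ'.2.2 a ha.1 b hb hab, hab ▸ ha.2⟩
    have h4 := hmin Z1 hmem
    have h5 : 0 < (Z.filter fun f => cl f = cl z).card :=
      card_pos.2 ⟨z, by simp [hz]⟩
    omega
  omega

section closure

variable (G : SimpleGraph E) (s : ℕ) (Z : Finset E)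

/-- neighbours in `Z` outside of `Y` -/
noncomputable def nout (Y : Finset E) (u : E) : Finset E := Z.filter fun w => w ∉ Y ∧ G.Adj u w

/-- vertices of `Y` with the same neighbours -/
noncomputable def cls (Y : Finset E) (u : E) : Finset E :=
  (Y ∩ Z).filter fun u' => nout G Z Y u' = nout G Z Y u

/-- heavy vertices of `Y` -/
noncomputable def Hv (Y : Finset E) : Finset E :=
  (Y ∩ Z).filter fun u => s ≤ (cls G Z Y u).card

variable {G s Z}

theorem nout_sub {X Y : Finset E} (h : Y ⊆ X) (u : E) :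
    nout G Z X u = (nout G Z Y u).filter fun w => w ∉ X := by
  ext w
  simp only [nout, mem_filter]
  constructor
  · rintro ⟨h1, h2, h3⟩
    exact ⟨⟨h1, fun h4 => h2 (h h4), h3⟩, h2⟩
  · rintro ⟨⟨h1, h2, h3⟩, h4⟩
    exact ⟨h1, h4, h3⟩

theorem card_nout_lt (hfree : NoBiclique G s Z) {Y : Finset E} {u : E} (hu : u ∈ Hv G s Z Y) :
    (nout G Z Y u).card < s := by
  by_contra hcon
  push Not at hcon
  simp only [Hv, mem_filter] at hu
  obtain ⟨a, ha, b, hb, hab⟩ := hfree.of_le (cls G Z Y u) (nout G Z Y u)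
    (by
      intro a ha
      simp only [cls, mem_filter, mem_inter] at ha
      exact ha.1.2) (filter_subset _ _) hu.2 hcon
  simp only [cls, mem_filter] at ha
  rw [← ha.2] at hb
  simp only [nout, mem_filter] at hb
  exact hab hb.2.2

theorem Hv_mono {X Y : Finset E} (h : Y ⊆ X) : Hv G s Z Y ⊆ Hv G s Z X := by
  intro u hu
  simp only [Hv, mem_filter, mem_inter] at hu ⊢
  refine ⟨⟨h hu.1.1, hu.1.2⟩, hu.2.trans (card_le_card ?_)⟩
  intro u' hu'
  simp only [cls, mem_filter, mem_inter] at hu' ⊢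
  refine ⟨⟨h hu'.1.1, hu'.1.2⟩, ?_⟩
  rw [nout_sub h, nout_sub h, hu'.2]

theorem light_card (Y : Finset E) (q : ℕ)
    (hq : (Y.image fun u => {w : E | w ∉ Y ∧ G.Adj u w}).card ≤ q) :
    ((Y ∩ Z) \ Hv G s Z Y).card ≤ q * s := by
  have h1 : ((Y ∩ Z).image (nout G Z Y)).card ≤ q := by
    have : (Y ∩ Z).image (nout G Z Y) ⊆
        (Y.image fun u => {w : E | w ∉ Y ∧ G.Adj u w}).image fun T => Z.filter fun w => w ∈ T := by
      intro T hT
      simp only [mem_image, mem_inter] at hT ⊢
      obtain ⟨u, hu, rfl⟩ := hT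
      refine ⟨_, ⟨u, hu.1, rfl⟩, ?_⟩
      ext w
      simp only [mem_filter, nout, Set.mem_ofPred_eq]
    exact (card_le_card this).trans (card_image_le.trans hq)
  have h2 : ((Y ∩ Z) \ Hv G s Z Y).card ≤ s * ((Y ∩ Z).image (nout G Z Y)).card := by
    apply card_le_mul_card_image_of_maps_to (f := nout G Z Y)
    · intro u hu
      exact mem_image_of_mem _ (mem_sdiff.1 hu).1
    · intro T hT
      by_contra hcon
      push Not at hcon
      have hne : (((Y ∩ Z) \ Hv G s Z Y).filter fun u => nout G Z Y u = T).Nonempty := by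
        rw [← card_pos]; omega
      obtain ⟨u, hu⟩ := hne
      simp only [mem_filter, mem_sdiff] at hu
      apply hu.1.2
      simp only [Hv, mem_filter]
      refine ⟨hu.1.1, hcon.le.trans (card_le_card ?_)⟩
      intro u' hu'
      simp only [cls, mem_filter, mem_sdiff] at hu' ⊢
      exact ⟨hu'.1.1, hu'.2.trans hu.2.symm⟩
  calc _ ≤ s * ((Y ∩ Z).image (nout G Z Y)).card := h2
    _ ≤ s * q := Nat.mul_le_mul_left _ h1
    _ = q * s := Nat.mul_comm _ _

/-- the node graph has no large biclique on the light vertices -/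
theorem node_noBiclique (hs : 0 < s) (hfree : NoBiclique G s Z) (q : ℕ) (X : Finset E)
    (P : Finset (Finset E)) (hdisj : ∀ Y ∈ P, ∀ Y' ∈ P, Y ≠ Y' → Disjoint Y Y')
    (hq : ∀ Y ∈ P, (Y.image fun u => {w : E | w ∉ Y ∧ G.Adj u w}).card ≤ q)
    (G' : SimpleGraph E)
    (hagree : ∀ u ∈ X, ∀ w ∈ X, (∀ Y ∈ P, ¬ (u ∈ Y ∧ w ∈ Y)) → (G.Adj u w ↔ G'.Adj u w)) :
    NoBiclique G' ((q + 3) * s) ((X ∩ Z) \ P.biUnion (Hv G s Z)) := by
  intro A hA J hJ hAc hJc
  by_contra hcon
  push Not at hcon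
  -- the part of a vertex
  set cl' : E → Finset (Finset E) ⊕ E := fun u =>
    if ∃ Y ∈ P, u ∈ Y then Sum.inl (P.filter fun Y => u ∈ Y) else Sum.inr u with hcl'
  have hcross : ∀ u w, cl' u ≠ cl' w → ∀ Y ∈ P, ¬ (u ∈ Y ∧ w ∈ Y) := by
    intro u w huw Y hY hYuw
    apply huw
    simp only [hcl']
    rw [if_pos ⟨Y, hY, hYuw.1⟩, if_pos ⟨Y, hY, hYuw.2⟩]
    congr 1
    ext Y'
    simp only [mem_filter]
    constructor
    · rintro ⟨h1, h2⟩
      refine ⟨h1, ?_⟩
      by_cases h : Y' = Y
      · rw [h]; exact hYuw.2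
      · exact absurd hYuw.1 (Finset.disjoint_left.1 (hdisj Y' h1 Y hY h) h2)
    · rintro ⟨h1, h2⟩
      refine ⟨h1, ?_⟩
      by_cases h : Y' = Y
      · rw [h]; exact hYuw.1
      · exact absurd hYuw.2 (Finset.disjoint_left.1 (hdisj Y' h1 Y hY h) h2)
  have hclass : ∀ A' ⊆ (X ∩ Z) \ P.biUnion (Hv G s Z), ∀ e ∈ A',
      ∀ M : Finset E, (∀ f ∈ M, f ∈ A' ∧ cl' f = cl' e) → M.card ≤ (q + 1) * s := by
    intro A' hA' e he M hM
    by_cases h : ∃ Y ∈ P, e ∈ Y
    · obtain ⟨Y, hY, heY⟩ := h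
      have : M ⊆ (Y ∩ Z) \ Hv G s Z Y := by
        intro f hf
        replace hf := hM f hf
        have hf1 := hA' hf.1
        simp only [mem_sdiff, mem_inter, mem_biUnion, not_exists, not_and] at hf1 ⊢
        refine ⟨⟨?_, hf1.1.2⟩, hf1.2 Y hY⟩
        have h2 := hf.2
        have h2e : cl' e = Sum.inl (P.filter fun Y => e ∈ Y) := by
          simp only [hcl']
          rw [if_pos ⟨Y, hY, heY⟩]
        rw [h2e] at h2
        by_cases h3 : ∃ Y ∈ P, f ∈ Y
        · have h2f : cl' f = Sum.inl (P.filter fun Y => f ∈ Y) := by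
            simp only [hcl']
            rw [if_pos h3]
          rw [h2f] at h2
          have h4 := Sum.inl_injective h2
          have h5 : Y ∈ P.filter fun Y => e ∈ Y := mem_filter.2 ⟨hY, heY⟩
          rw [← h4] at h5
          exact (mem_filter.1 h5).2
        · have h2f : cl' f = Sum.inr f := by
            simp only [hcl']
            rw [if_neg h3]
          rw [h2f] at h2
          exact absurd h2 (by simp)
      calc _ ≤ _ := card_le_card this
        _ ≤ q * s := light_card Y q (hq Y hY)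
        _ ≤ (q + 1) * s := Nat.mul_le_mul_right _ (Nat.le_succ _)
    · have : M ⊆ {e} := by
        intro f hf
        replace hf := hM f hf
        simp only [hcl'] at hf
        rw [if_neg h] at hf
        by_cases h3 : ∃ Y ∈ P, f ∈ Y
        · rw [if_pos h3] at hf
          exact absurd hf.2 (by simp)
        · rw [if_neg h3] at hf
          rw [mem_singleton]
          exact Sum.inr_injective hf.2
      calc _ ≤ 1 := (card_le_card this).trans (card_singleton e).le
        _ ≤ (q + 1) * s := by nlinarith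
  have hAX : ∀ a ∈ (X ∩ Z) \ P.biUnion (Hv G s Z), a ∈ X ∧ a ∈ Z := by
    intro a ha
    simp only [mem_sdiff, mem_inter] at ha
    exact ha.1
  obtain ⟨A1, hA1, h11, h12, h13⟩ := exists_group' cl' s ((q + 1) * s) hs A
    (fun e he => hclass A hA e he _ fun f hf => by simpa only [mem_filter] using hf)
    (by rw [hAc]; nlinarith)
  set J1 := J.filter fun w => ∃ a ∈ A1, cl' a = cl' w with hJ1
  set J2 := J.filter fun w => ¬ ∃ a ∈ A1, cl' a = cl' w with hJ2
  have hJs : J1.card + J2.card = J.card := card_filter_add_card_filter_not _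
  rcases le_or_gt s J2.card with hc | hc
  · obtain ⟨a, ha, b, hb, hab⟩ := hfree.of_le A1 J2
      (fun a ha => (hAX a (hA (hA1 ha))).2)
      (fun a ha => (hAX a (hJ (mem_filter.1 ha).1)).2) h11 hc
    have hb' := mem_filter.1 hb
    apply hab
    rw [hagree a (hAX a (hA (hA1 ha))).1 b (hAX b (hJ hb'.1)).1
      (hcross a b fun h => hb'.2 ⟨a, ha, h⟩)]
    exact hcon a (hA1 ha) b hb'.1
  · have hc1 : s ≤ J1.card := by
      have : J1.card = (q + 3) * s - J2.card := by omega
      have h2 : (q + 3) * s = (q + 1) * s + 2 * s := by ring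
      omega
    have hc2 : s ≤ (A \ A1).card := by
      rw [card_sdiff_of_subset hA1, hAc]
      have h2 : (q + 3) * s = (q + 1) * s + 2 * s := by ring
      omega
    obtain ⟨a, ha, b, hb, hab⟩ := hfree.of_le (A \ A1) J1
      (fun a ha => (hAX a (hA (mem_sdiff.1 ha).1)).2)
      (fun a ha => (hAX a (hJ (mem_filter.1 ha).1)).2) hc2 hc1
    have hb' := mem_filter.1 hb
    have ha' := mem_sdiff.1 ha
    apply hab
    rw [hagree a (hAX a (hA ha'.1)).1 b (hAX b (hJ hb'.1)).1
      (hcross a b fun h => by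
        obtain ⟨a1, ha1, h1⟩ := hb'.2
        exact ha'.2 (h13 a1 ha1 a ha'.1 (h.trans h1.symm)))]
    exact hcon a ha'.1 b hb'.1

end closure

end Pool.Agent.Helper32.Piv
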